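import Pool.Agent.X330.PS.Mean

set_option autoImplicit false
set_option linter.unusedVariables false

namespace Pool.Agent.X330.PS

/-- bounded functions -/
def Bd {X : Type} (φ : X → ℝ) : Prop := ∃ C, ∀ x, |φ x| ≤ C

theorem Bd.of_le {X : Type} {φ : X → ℝ} (C : ℝ) (h : ∀ x, |φ x| ≤ C) : Bd φ := ⟨C, h⟩

theorem Bd.of_unit {X : Type} {φ : X → ℝ} (h0 : ∀ x, 0 ≤ φ x) (h1 : ∀ x, φ x ≤ 1) : Bd φ :=
  ⟨1, fun x => abs_le.mpr ⟨by linarith [h0 x], h1 x⟩⟩

theorem Bd.add {X : Type} {φ ψ : X → ℝ} (hφ : Bd φ) (hψ : Bd ψ) : Bd (fun x => φ x + ψ x) := by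
  obtain ⟨C, hC⟩ := hφ
  obtain ⟨D, hD⟩ := hψ
  exact ⟨C + D, fun x => (abs_add_le _ _).trans (add_le_add (hC x) (hD x))⟩

theorem Bd.sub {X : Type} {φ ψ : X → ℝ} (hφ : Bd φ) (hψ : Bd ψ) : Bd (fun x => φ x - ψ x) := by
  obtain ⟨C, hC⟩ := hφ
  obtain ⟨D, hD⟩ := hψ
  exact ⟨C + D, fun x => (abs_sub _ _).trans (add_le_add (hC x) (hD x))⟩

theorem Bd.mul {X : Type} {φ ψ : X → ℝ} (hφ : Bd φ) (hψ : Bd ψ) : Bd (fun x => φ x * ψ x) := by
  obtain ⟨C, hC⟩ := hφ
  obtain ⟨D, hD⟩ := hψ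
  refine ⟨C * D, fun x => ?_⟩
  rw [abs_mul]
  exact mul_le_mul (hC x) (hD x) (abs_nonneg _) ((abs_nonneg _).trans (hC x))

theorem Bd.const {X : Type} (c : ℝ) : Bd (fun _ : X => c) := ⟨|c|, fun _ => le_rfl⟩

theorem Bd.comp {X Y : Type} {φ : X → ℝ} (hφ : Bd φ) (g : Y → X) : Bd (fun y => φ (g y)) := by
  obtain ⟨C, hC⟩ := hφ
  exact ⟨C, fun x => hC _⟩

theorem Bd.sum {X ι : Type} (s : Finset ι) {φ : ι → X → ℝ} (hφ : ∀ i ∈ s, Bd (φ i)) :
    Bd (fun x => ∑ i ∈ s, φ i x) := by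
  classical
  induction s using Finset.induction_on with
  | empty => exact ⟨0, fun x => by simp⟩
  | insert a s ha ih =>
    have h1 := ih (fun i hi => hφ i (Finset.mem_insert_of_mem hi))
    have h2 := hφ a (Finset.mem_insert_self a s)
    have := h2.add h1
    refine Eq.mp ?_ this
    congr 1
    funext x
    rw [Finset.sum_insert ha]

namespace Mean

variable {X Y : Type} (m : Mean X) (n : Mean Y)

theorem pos {φ : X → ℝ} (hb : Bd φ) (h : ∀ x, 0 ≤ φ x) : 0 ≤ m.f φ := m.nonneg φ hb h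

theorem mono {φ ψ : X → ℝ} (hφ : Bd φ) (hψ : Bd ψ) (h : ∀ x, φ x ≤ ψ x) : m.f φ ≤ m.f ψ := by
  have h1 : 0 ≤ m.f (ψ - φ) := m.nonneg _ (hψ.sub hφ) (fun x => sub_nonneg.mpr (h x))
  rw [map_sub] at h1
  linarith

theorem const (c : ℝ) : m.f (fun _ => c) = c := by
  have h : (fun _ : X => c) = c • (fun _ : X => (1 : ℝ)) := by
    funext x
    simp
  rw [h, map_smul, m.one]
  simp

theorem abs_le {φ : X → ℝ} {C : ℝ} (h : ∀ x, |φ x| ≤ C) : |m.f φ| ≤ C := by
  rw [_root_.abs_le]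
  constructor
  · have := m.mono (φ := fun _ => -C) (ψ := φ) (Bd.const _) ⟨C, h⟩ (fun x => (_root_.abs_le.mp (h x)).1)
    rwa [m.const] at this
  · have := m.mono (φ := φ) (ψ := fun _ => C) ⟨C, h⟩ (Bd.const _) (fun x => (_root_.abs_le.mp (h x)).2)
    rwa [m.const] at this

theorem add_f (φ ψ : X → ℝ) : m.f (fun x => φ x + ψ x) = m.f φ + m.f ψ := map_add m.f φ ψ

theorem sub_f (φ ψ : X → ℝ) : m.f (fun x => φ x - ψ x) = m.f φ - m.f ψ := map_sub m.f φ ψ

theorem mul_f (c : ℝ) (φ : X → ℝ) : m.f (fun x => c * φ x) = c * m.f φ := by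
  have : (fun x => c * φ x) = c • φ := by
    funext x
    simp
  rw [this, map_smul, smul_eq_mul]

theorem f_mul (c : ℝ) (φ : X → ℝ) : m.f (fun x => φ x * c) = m.f φ * c := by
  rw [mul_comm, ← m.mul_f]
  congr 1
  funext x
  ring

theorem sum_f {ι : Type} (s : Finset ι) (φ : ι → X → ℝ) :
    m.f (fun x => ∑ i ∈ s, φ i x) = ∑ i ∈ s, m.f (φ i) := by
  rw [← map_sum]
  congr 1
  funext x
  simp

theorem le_one {φ : X → ℝ} (h0 : ∀ x, 0 ≤ φ x) (h1 : ∀ x, φ x ≤ 1) : m.f φ ≤ 1 := by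
  have := m.mono (Bd.of_unit h0 h1) (Bd.const 1) h1
  rwa [m.const] at this

theorem bd_inner (φ : X → Y → ℝ) (h : ∃ C, ∀ x y, |φ x y| ≤ C) : Bd (fun x => n.f (φ x)) := by
  obtain ⟨C, hC⟩ := h
  exact ⟨C, fun x => n.abs_le (hC x)⟩

/-- push forward -/
def map (g : X → Y) : Mean Y where
  f :=
    { toFun := fun φ => m.f (fun x => φ (g x))
      map_add' := fun φ ψ => m.add_f _ _
      map_smul' := fun c φ => m.mul_f c _ }
  one := m.one
  nonneg := fun _ hb hn => m.nonneg _ (Bd.comp hb g) (fun x => hn _)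

theorem map_f (g : X → Y) (φ : Y → ℝ) : (m.map g).f φ = m.f (fun x => φ (g x)) := rfl

/-- iterated mean -/
def prod : Mean (X × Y) where
  f :=
    { toFun := fun φ => m.f (fun x => n.f (fun y => φ (x, y)))
      map_add' := by
        intro φ ψ
        show m.f (fun x => n.f (fun y => φ (x, y) + ψ (x, y))) = _
        have : (fun x => n.f (fun y => φ (x, y) + ψ (x, y))) =
            fun x => n.f (fun y => φ (x, y)) + n.f (fun y => ψ (x, y)) := by
          funext x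
          exact n.add_f _ _
        rw [this]
        exact m.add_f _ _
      map_smul' := by
        intro c φ
        show m.f (fun x => n.f (fun y => c * φ (x, y))) = _
        have : (fun x => n.f (fun y => c * φ (x, y))) =
            fun x => c * n.f (fun y => φ (x, y)) := by
          funext x
          exact n.mul_f _ _
        rw [this]
        exact m.mul_f _ _ }
  one := by
    show m.f (fun x => n.f (fun y => 1)) = 1
    have : (fun _ : X => n.f (fun _ => 1)) = fun _ => 1 := by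
      funext x
      exact n.one
    rw [this, m.one]
  nonneg := by
    rintro φ ⟨C, hC⟩ hn
    exact m.nonneg _ ⟨C, fun x => n.abs_le fun y => hC _⟩ (fun x => n.nonneg _ ⟨C, fun y => hC _⟩ fun y => hn _)

theorem prod_f (φ : X × Y → ℝ) : (m.prod n).f φ = m.f (fun x => n.f (fun y => φ (x, y))) := rfl

/-- point mass -/
def dirac (x : X) : Mean X where
  f := LinearMap.proj x
  one := rfl
  nonneg := fun _ _ hn => hn x

end Mean

/-- The iterated mean on blocks of length `l`; the first coordinate is the outermost one. -/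
noncomputable def MF (m : Mean ℕ) : (l : ℕ) → Mean (Fin l → ℕ)
  | 0 => Mean.dirac Fin.elim0
  | l + 1 => (m.prod (MF m l)).map (fun p => Fin.cons p.1 p.2)

theorem MF_zero (m : Mean ℕ) (φ : (Fin 0 → ℕ) → ℝ) : (MF m 0).f φ = φ Fin.elim0 := rfl

theorem MF_succ (m : Mean ℕ) (l : ℕ) (φ : (Fin (l + 1) → ℕ) → ℝ) :
    (MF m (l + 1)).f φ = m.f (fun y => (MF m l).f (fun w => φ (Fin.cons y w))) := rfl

/-- replace the coordinates `k, …, k + l - 1` of a sequence by a block -/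
def splice {l : ℕ} (x : ℕ → ℕ) (k : ℕ) (w : Fin l → ℕ) : ℕ → ℕ :=
  fun i => if h : k ≤ i ∧ i < k + l then w ⟨i - k, by omega⟩ else x i

theorem splice_zero (x : ℕ → ℕ) (k : ℕ) (w : Fin 0 → ℕ) : splice x k w = x := by
  funext i
  unfold splice
  rw [dif_neg (by omega)]

theorem splice_of_lt {l : ℕ} (x : ℕ → ℕ) (k : ℕ) (w : Fin l → ℕ) {i : ℕ} (h : i < k) :
    splice x k w i = x i := by
  unfold splice
  rw [dif_neg (by omega)]

theorem splice_of_ge {l : ℕ} (x : ℕ → ℕ) (k : ℕ) (w : Fin l → ℕ) {i : ℕ} (h : k + l ≤ i) :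
    splice x k w i = x i := by
  unfold splice
  rw [dif_neg (by omega)]

theorem splice_add {l : ℕ} (x : ℕ → ℕ) (k : ℕ) (w : Fin l → ℕ) (i : Fin l) :
    splice x k w (k + i) = w i := by
  unfold splice
  rw [dif_pos ⟨by omega, by omega⟩]
  congr 1
  ext
  simp

theorem splice_cons {l : ℕ} (x : ℕ → ℕ) (k y : ℕ) (w : Fin l → ℕ) :
    splice x k (Fin.cons y w : Fin (l + 1) → ℕ) = splice (Function.update x k y) (k + 1) w := by
  funext i
  by_cases h1 : i < k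
  · rw [splice_of_lt _ _ _ h1, splice_of_lt _ _ _ (by omega), Function.update_of_ne (by omega)]
  · by_cases h2 : i = k
    · subst h2
      have := splice_add x i (Fin.cons y w : Fin (l + 1) → ℕ) 0
      simp only [Fin.val_zero, add_zero, Fin.cons_zero] at this
      rw [this, splice_of_lt _ _ _ (by omega), Function.update_self]
    · by_cases h3 : i < k + (l + 1)
      · obtain ⟨j, rfl⟩ : ∃ j, i = k + 1 + j := ⟨i - (k + 1), by omega⟩
        have hj : j < l := by omega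
        have e1 := splice_add x k (Fin.cons y w : Fin (l + 1) → ℕ) (Fin.succ ⟨j, hj⟩)
        have e2 := splice_add (Function.update x k y) (k + 1) w ⟨j, hj⟩
        simp only [Fin.val_succ, Fin.cons_succ] at e1 e2
        rw [e2, ← e1]
        congr 1
        ring
      · rw [splice_of_ge _ _ _ (by omega), splice_of_ge _ _ _ (by omega),
          Function.update_of_ne (by omega)]

/-- the iterated mean over the coordinates `k, …, k + l - 1` of a sequence -/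
noncomputable def It (m : Mean ℕ) (k l : ℕ) (φ : (ℕ → ℕ) → ℝ) (x : ℕ → ℕ) : ℝ :=
  (MF m l).f (fun w => φ (splice x k w))

theorem It_zero (m : Mean ℕ) (k : ℕ) (φ : (ℕ → ℕ) → ℝ) (x : ℕ → ℕ) : It m k 0 φ x = φ x := by
  unfold It
  rw [MF_zero, splice_zero]

theorem It_succ (m : Mean ℕ) (k l : ℕ) (φ : (ℕ → ℕ) → ℝ) (x : ℕ → ℕ) :
    It m k (l + 1) φ x = m.f (fun y => It m (k + 1) l φ (Function.update x k y)) := by
  unfold It
  rw [MF_succ]
  simp only [splice_cons]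

theorem It_add (m : Mean ℕ) (k l l' : ℕ) (φ : (ℕ → ℕ) → ℝ) (x : ℕ → ℕ) :
    It m k (l + l') φ x = It m k l (It m (k + l) l' φ) x := by
  induction l generalizing k x with
  | zero => rw [It_zero, zero_add, add_zero]
  | succ l ih =>
    rw [show l + 1 + l' = (l + l') + 1 by ring, It_succ, It_succ]
    congr 1
    funext y
    rw [ih, show k + 1 + l = k + (l + 1) by ring]

theorem It_congr (m : Mean ℕ) (k l : ℕ) {φ ψ : (ℕ → ℕ) → ℝ} (x : ℕ → ℕ)
    (h : ∀ w : Fin l → ℕ, φ (splice x k w) = ψ (splice x k w)) : It m k l φ x = It m k l ψ x := by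
  unfold It
  congr 1
  funext w
  exact h w

theorem It_abs_le (m : Mean ℕ) (k l : ℕ) {φ : (ℕ → ℕ) → ℝ} {C : ℝ} (h : ∀ x, |φ x| ≤ C)
    (x : ℕ → ℕ) : |It m k l φ x| ≤ C := (MF m l).abs_le fun w => h _

theorem It_mono (m : Mean ℕ) (k l : ℕ) {φ ψ : (ℕ → ℕ) → ℝ} (hφ : Bd φ) (hψ : Bd ψ)
    (h : ∀ x, φ x ≤ ψ x) (x : ℕ → ℕ) : It m k l φ x ≤ It m k l ψ x :=
  (MF m l).mono (hφ.comp _) (hψ.comp _) fun w => h _

theorem It_nonneg (m : Mean ℕ) (k l : ℕ) {φ : (ℕ → ℕ) → ℝ} (hφ : Bd φ)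
    (h : ∀ x, 0 ≤ φ x) (x : ℕ → ℕ) : 0 ≤ It m k l φ x :=
  (MF m l).pos (hφ.comp _) fun w => h _

theorem It_le_one (m : Mean ℕ) (k l : ℕ) {φ : (ℕ → ℕ) → ℝ}
    (h : ∀ x, 0 ≤ φ x) (h1 : ∀ x, φ x ≤ 1) (x : ℕ → ℕ) : It m k l φ x ≤ 1 :=
  (MF m l).le_one (fun w => h _) fun w => h1 _

theorem It_add_f (m : Mean ℕ) (k l : ℕ) (φ ψ : (ℕ → ℕ) → ℝ) (x : ℕ → ℕ) :
    It m k l (fun x => φ x + ψ x) x = It m k l φ x + It m k l ψ x := (MF m l).add_f _ _

theorem It_sub_f (m : Mean ℕ) (k l : ℕ) (φ ψ : (ℕ → ℕ) → ℝ) (x : ℕ → ℕ) :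
    It m k l (fun x => φ x - ψ x) x = It m k l φ x - It m k l ψ x := (MF m l).sub_f _ _

theorem It_sum_f (m : Mean ℕ) (k l : ℕ) {ι : Type} (s : Finset ι) (φ : ι → (ℕ → ℕ) → ℝ)
    (x : ℕ → ℕ) : It m k l (fun x => ∑ i ∈ s, φ i x) x = ∑ i ∈ s, It m k l (φ i) x :=
  (MF m l).sum_f s _

/-- a factor which does not see the averaged coordinates can be pulled out -/
theorem It_pull (m : Mean ℕ) (k l : ℕ) (D Ξ : (ℕ → ℕ) → ℝ)
    (hD : ∀ x y : ℕ → ℕ, (∀ i < k, x i = y i) → D x = D y) (x : ℕ → ℕ) :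
    It m k l (fun x => D x * Ξ x) x = D x * It m k l Ξ x := by
  unfold It
  rw [← (MF m l).mul_f]
  congr 1
  funext w
  show D (splice x k w) * Ξ (splice x k w) = _
  rw [hD (splice x k w) x (fun i hi => splice_of_lt _ _ _ hi)]

end Pool.Agent.X330.PS
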