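import Pool.Agent.X330.PS.Reg

set_option autoImplicit false
set_option linter.unusedVariables false

namespace Pool.Agent.X330.PS

open Classical

/-- a block of a sequence -/
def blk (x : ℕ → ℕ) (j l : ℕ) : Fin l → ℕ := fun i => x (j + i)

/-- the tower of colourings together with its transition kernels -/
structure Fam (m : Mean ℕ) (R : ℕ) (δ : ℝ) where
  τ : ∀ l, (Fin l → ℕ) → ℕ
  N : ℕ → ℕ
  K : ℕ → ℕ → ℕ → ℕ → ℝ
  lt : ∀ l y, τ l y < N l
  Knn : ∀ l v u u', 0 ≤ K l v u u'
  Ksum : ∀ l u u', ∑ v ∈ Finset.range (N (l + 1)), K l v u u' = 1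
  reg : ∀ l, l + 1 ≤ R → ∀ G : (Fin l → ℕ) → (Fin l → ℕ) → ℝ, (Set.range G).Finite →
    (∀ a b, 0 ≤ G a b) → (∀ a b, G a b ≤ 1) → ∀ v < N (l + 1),
    |(MF m (l + 1)).f (fun y => ((if τ (l + 1) y = v then 1 else 0) -
      K l v (τ l (Fin.init y)) (τ l (Fin.tail y))) * G (Fin.init y) (Fin.tail y))| ≤
      δ / (N (l + 1))

/-- diagrams of colours -/
abbrev Dg (R : ℕ) := ℕ → Fin (R + 1) → ℕ

/-- change one colour of a diagram -/
def upd {R : ℕ} (t : Dg R) (l : ℕ) (k : Fin (R + 1)) (u : ℕ) : Dg R :=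
  Function.update t l (Function.update (t l) k u)

theorem upd_same {R : ℕ} (t : Dg R) (l : ℕ) (k : Fin (R + 1)) (u : ℕ) :
    upd t l k u l k = u := by
  unfold upd
  rw [Function.update_self, Function.update_self]

theorem upd_ne_pos {R : ℕ} (t : Dg R) (l : ℕ) (k : Fin (R + 1)) (u : ℕ) {j : Fin (R + 1)}
    (h : j ≠ k) : upd t l k u l j = t l j := by
  unfold upd
  rw [Function.update_self, Function.update_of_ne h]

theorem upd_ne_lev {R : ℕ} (t : Dg R) (l : ℕ) (k : Fin (R + 1)) (u : ℕ) {l' : ℕ}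
    (h : l' ≠ l) : upd t l k u l' = t l' := by
  unfold upd
  rw [Function.update_of_ne h]

theorem upd_comm {R : ℕ} (t : Dg R) (l : ℕ) {k j : Fin (R + 1)} (h : k ≠ j) (u v : ℕ) :
    upd (upd t l k u) l j v = upd (upd t l j v) l k u := by
  unfold upd
  rw [Function.update_idem, Function.update_idem, Function.update_self, Function.update_self,
    Function.update_comm h]

theorem upd_self {R : ℕ} (t : Dg R) (l : ℕ) (k : Fin (R + 1)) : upd t l k (t l k) = t := by
  unfold upd
  rw [Function.update_eq_self, Function.update_eq_self]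

/-- rotation of diagrams -/
def rot {R : ℕ} (t : Dg R) : Dg R := fun l j => t l (j + 1)

theorem rot_upd {R : ℕ} (t : Dg R) (l : ℕ) (k : Fin (R + 1)) (u : ℕ) :
    rot (upd t l (k + 1) u) = upd (rot t) l k u := by
  funext l' j
  by_cases hl : l' = l
  · subst hl
    by_cases hj : j = k
    · subst hj
      rw [upd_same]
      show upd t l' (j + 1) u l' (j + 1) = u
      rw [upd_same]
    · rw [upd_ne_pos _ _ _ _ hj]
      show upd t l' (k + 1) u l' (j + 1) = t l' (j + 1)
      rw [upd_ne_pos _ _ _ _ (fun h => hj (add_right_cancel h))]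
  · rw [upd_ne_lev _ _ _ _ hl]
    show upd t l (k + 1) u l' (j + 1) = t l' (j + 1)
    rw [upd_ne_lev _ _ _ _ hl]

section ops

variable {m : Mean ℕ} {R : ℕ} {δ : ℝ} (F : Fam m R δ)

/-- resample the colour at level `l + 1`, position `k` -/
noncomputable def P (l : ℕ) (k : Fin (R + 1)) (g : Dg R → ℝ) : Dg R → ℝ := fun t =>
  ∑ u ∈ Finset.range (F.N (l + 1)), F.K l u (t l k) (t l (k + 1)) * g (upd t (l + 1) k u)

theorem P_comm (l : ℕ) (k j : Fin (R + 1)) (g : Dg R → ℝ) :
    P F l k (P F l j g) = P F l j (P F l k g) := by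
  by_cases h : k = j
  · rw [h]
  · funext t
    unfold P
    have e : ∀ (k : Fin (R + 1)) (u : ℕ), upd t (l + 1) k u l = t l := fun k u =>
      upd_ne_lev _ _ _ _ (by omega)
    simp only [e]
    rw [Finset.sum_congr rfl (fun u _ => Finset.mul_sum _ _ _),
      Finset.sum_congr rfl (fun u _ => Finset.mul_sum _ _ _), Finset.sum_comm]
    refine Finset.sum_congr rfl fun u _ => Finset.sum_congr rfl fun v _ => ?_
    rw [upd_comm t (l + 1) h]
    ring

/-- the full resampling of level `l + 1` -/
noncomputable def PL (l : ℕ) (L : List (Fin (R + 1))) (g : Dg R → ℝ) : Dg R → ℝ :=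
  L.foldr (fun k g => P F l k g) g

theorem PL_nil (l : ℕ) (g : Dg R → ℝ) : PL F l [] g = g := rfl

theorem PL_cons (l : ℕ) (k : Fin (R + 1)) (L : List (Fin (R + 1))) (g : Dg R → ℝ) :
    PL F l (k :: L) g = P F l k (PL F l L g) := rfl

theorem PL_perm (l : ℕ) {L L' : List (Fin (R + 1))} (h : L.Perm L') (g : Dg R → ℝ) :
    PL F l L g = PL F l L' g := by
  have : LeftCommutative (fun (k : Fin (R + 1)) (g : Dg R → ℝ) => P F l k g) :=
    ⟨fun a b c => P_comm F l a b c⟩
  exact h.foldr_eq g

theorem P_rot (l : ℕ) (k : Fin (R + 1)) (g : Dg R → ℝ) :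
    P F l (k + 1) (fun t => g (rot t)) = fun t => P F l k g (rot t) := by
  funext t
  unfold P
  refine Finset.sum_congr rfl fun u _ => ?_
  show _ * g (rot (upd t (l + 1) (k + 1) u)) = _
  rw [rot_upd]
  rfl

theorem PL_rot' (l : ℕ) (L : List (Fin (R + 1))) (g : Dg R → ℝ) :
    PL F l (L.map (fun k => k + 1)) (fun t => g (rot t)) = fun t => PL F l L g (rot t) := by
  induction L with
  | nil => rfl
  | cons k L ih =>
    rw [List.map_cons, PL_cons, ih, P_rot]
    rfl

theorem PL_rot (l : ℕ) (g : Dg R → ℝ) :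
    PL F l (List.finRange (R + 1)) (fun t => g (rot t)) =
      fun t => PL F l (List.finRange (R + 1)) g (rot t) := by
  rw [← PL_rot']
  refine PL_perm F l ?_ _
  rw [List.perm_ext_iff_of_nodup (List.nodup_finRange _)
    ((List.nodup_finRange _).map (fun a b h => add_right_cancel h))]
  intro a
  simp only [List.mem_finRange, List.mem_map, true_and, true_iff]
  exact ⟨a - 1, sub_add_cancel _ _⟩

/-- resample all levels `1, …, l` -/
noncomputable def PP : ℕ → (Dg R → ℝ) → (Dg R → ℝ)
  | 0, g => g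
  | l + 1, g => PP l (PL F l (List.finRange (R + 1)) g)

theorem PP_zero (g : Dg R → ℝ) : PP F 0 g = g := rfl

theorem PP_succ (l : ℕ) (g : Dg R → ℝ) :
    PP F (l + 1) g = PP F l (PL F l (List.finRange (R + 1)) g) := rfl

theorem PP_rot (l : ℕ) (g : Dg R → ℝ) :
    PP F l (fun t => g (rot t)) = fun t => PP F l g (rot t) := by
  induction l generalizing g with
  | zero => rfl
  | succ l ih => rw [PP_succ, PP_succ, PL_rot, ih]

/-- values in the unit interval -/
def Un (g : Dg R → ℝ) : Prop := ∀ t, 0 ≤ g t ∧ g t ≤ 1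

theorem P_un (l : ℕ) (k : Fin (R + 1)) {g : Dg R → ℝ} (hg : Un g) : Un (P F l k g) := by
  intro t
  refine ⟨Finset.sum_nonneg fun u _ => mul_nonneg (F.Knn _ _ _ _) (hg _).1, ?_⟩
  calc P F l k g t ≤ ∑ u ∈ Finset.range (F.N (l + 1)), F.K l u (t l k) (t l (k + 1)) :=
        Finset.sum_le_sum fun u _ => mul_le_of_le_one_right (F.Knn _ _ _ _) (hg _).2
    _ = 1 := F.Ksum _ _ _

theorem PL_un (l : ℕ) (L : List (Fin (R + 1))) {g : Dg R → ℝ} (hg : Un g) : Un (PL F l L g) := by
  induction L with
  | nil => exact hg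
  | cons k L ih => exact P_un F l k ih

theorem PP_un (l : ℕ) {g : Dg R → ℝ} (hg : Un g) : Un (PP F l g) := by
  induction l generalizing g with
  | zero => exact hg
  | succ l ih => exact ih (PL_un F l _ hg)

theorem P_sum (l : ℕ) (k : Fin (R + 1)) {ι : Type} (s : Finset ι) (g : ι → Dg R → ℝ) :
    P F l k (fun t => ∑ i ∈ s, g i t) = fun t => ∑ i ∈ s, P F l k (g i) t := by
  funext t
  unfold P
  rw [Finset.sum_comm]
  refine Finset.sum_congr rfl fun u _ => ?_
  rw [Finset.mul_sum]

theorem PL_sum (l : ℕ) (L : List (Fin (R + 1))) {ι : Type} (s : Finset ι) (g : ι → Dg R → ℝ) :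
    PL F l L (fun t => ∑ i ∈ s, g i t) = fun t => ∑ i ∈ s, PL F l L (g i) t := by
  induction L with
  | nil => rfl
  | cons k L ih =>
    rw [PL_cons, ih, P_sum]
    rfl

theorem PP_sum (l : ℕ) {ι : Type} (s : Finset ι) (g : ι → Dg R → ℝ) :
    PP F l (fun t => ∑ i ∈ s, g i t) = fun t => ∑ i ∈ s, PP F l (g i) t := by
  induction l generalizing g with
  | zero => rfl
  | succ l ih =>
    rw [PP_succ, PL_sum, ih]
    rfl

/-- `g` only looks at the linear coordinates of level `< l` and at those of level `l` in `S` -/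
def Dep (l : ℕ) (S : Set (Fin (R + 1))) (g : Dg R → ℝ) : Prop :=
  ∀ t t' : Dg R, (∀ l' < l, ∀ j : Fin (R + 1), j.val + l' ≤ R + 1 → t l' j = t' l' j) →
    (∀ j ∈ S, j.val + l ≤ R + 1 → t l j = t' l j) → g t = g t'

theorem Dep.anti {l : ℕ} {S S' : Set (Fin (R + 1))} {g : Dg R → ℝ} (h : Dep l S g)
    (hS : S ⊆ S') : Dep l S' g := fun t t' h1 h2 => h t t' h1 fun j hj => h2 j (hS hj)

theorem Dep.down {l : ℕ} {g : Dg R → ℝ} (h : Dep (l + 1) ∅ g) : Dep l Set.univ g := by
  intro t t' h1 h2
  refine h t t' (fun l' hl' j hj => ?_) (fun j hj => absurd hj (Set.notMem_empty _))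
  rcases Nat.lt_succ_iff_lt_or_eq.mp hl' with h3 | h3
  · exact h1 l' h3 j hj
  · subst h3
    exact h2 j (Set.mem_univ _) hj

theorem P_nonlin (l : ℕ) (k : Fin (R + 1)) (hk : R + 1 < k.val + (l + 1)) (S : Set (Fin (R + 1)))
    {g : Dg R → ℝ} (hg : Dep (l + 1) S g) : P F l k g = g := by
  funext t
  have e : ∀ u, g (upd t (l + 1) k u) = g t := by
    intro u
    refine hg _ _ (fun l' hl' j hj => ?_) (fun j hj hj' => ?_)
    · rw [upd_ne_lev _ _ _ _ (by omega)]
    · rw [upd_ne_pos]
      rintro rfl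
      omega
  unfold P
  rw [Finset.sum_congr rfl (fun u _ => by rw [e u]), ← Finset.sum_mul, F.Ksum, one_mul]

theorem P_dep (l : ℕ) (k : Fin (R + 1)) (hl : l ≤ R) (S : Set (Fin (R + 1)))
    {g : Dg R → ℝ} (hg : Dep (l + 1) S g) : Dep (l + 1) (S \ {k}) (P F l k g) := by
  intro t t' h1 h2
  by_cases hk : R + 1 < k.val + (l + 1)
  · rw [P_nonlin F l k hk S hg]
    refine hg t t' h1 fun j hj hj' => h2 j ⟨hj, ?_⟩ hj'
    rintro rfl
    omega
  · unfold P
    refine Finset.sum_congr rfl fun u _ => ?_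
    have e1 : t l k = t' l k := h1 l (by omega) k (by omega)
    have e2 : t l (k + 1) = t' l (k + 1) := by
      refine h1 l (by omega) (k + 1) ?_
      rw [Fin.val_add_one]
      split_ifs <;> omega
    have e3 : g (upd t (l + 1) k u) = g (upd t' (l + 1) k u) := by
      refine hg _ _ (fun l' hl' j hj => ?_) (fun j hj hj' => ?_)
      · rw [upd_ne_lev _ _ _ _ (by omega), upd_ne_lev _ _ _ _ (by omega)]
        exact h1 l' hl' j hj
      · by_cases hjk : j = k
        · subst hjk
          rw [upd_same, upd_same]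
        · rw [upd_ne_pos _ _ _ _ hjk, upd_ne_pos _ _ _ _ hjk]
          exact h2 j ⟨hj, hjk⟩ hj'
    rw [e1, e2, e3]

theorem PL_dep' (l : ℕ) (L : List (Fin (R + 1))) (hl : l ≤ R)
    {g : Dg R → ℝ} (hg : Dep (l + 1) Set.univ g) : Dep (l + 1) {j | j ∉ L} (PL F l L g) := by
  induction L with
  | nil =>
    rw [PL_nil]
    exact hg.anti (by intro j _; simp)
  | cons k L ih =>
    rw [PL_cons]
    refine (P_dep F l k hl _ ih).anti ?_
    rintro j ⟨h1, h2⟩
    simp only [Set.mem_ofPred_eq, List.mem_cons, not_or] at h1 ⊢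
    exact ⟨h2, h1⟩

theorem PL_dep (l : ℕ) (hl : l ≤ R)
    {g : Dg R → ℝ} (hg : Dep (l + 1) Set.univ g) :
    Dep l Set.univ (PL F l (List.finRange (R + 1)) g) := by
  refine Dep.down ((PL_dep' F l _ hl hg).anti ?_)
  intro j hj
  exact absurd (List.mem_finRange j) hj

/-- the diagram of a sequence -/
def D (x : ℕ → ℕ) : Dg R := fun l j => F.τ l (blk x j l)

theorem D_lt (x : ℕ → ℕ) (l : ℕ) (j : Fin (R + 1)) : D F x l j < F.N l := F.lt _ _

/-- the expectation -/
noncomputable def Ex (φ : (ℕ → ℕ) → ℝ) : ℝ := It m 0 (R + 1) φ (fun _ => 0)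

/-- **One resampling step.** -/
theorem step (l : ℕ) (k : Fin (R + 1)) (hl : l + 1 ≤ R) (hk : k.val + (l + 1) ≤ R + 1)
    {g : Dg R → ℝ} (hg : Un g) (hdep : Dep (l + 1) Set.univ g) :
    |It m 0 (R + 1) (fun x => g (D F x)) (fun _ => 0) -
      It m 0 (R + 1) (fun x => P F l k g (D F x)) (fun _ => 0)| ≤ δ := by
  -- the difference as a sum
  let Δ : ℕ → (ℕ → ℕ) → ℝ := fun u x => (if F.τ (l + 1) (blk x k (l + 1)) = u then 1 else 0) -
    F.K l u (F.τ l (blk x k l)) (F.τ l (blk x (k + 1) l))
  let G : ℕ → (ℕ → ℕ) → ℝ := fun u x => g (upd (D F x) (l + 1) k u)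
  have hG0 : ∀ u x, 0 ≤ G u x := fun u x => (hg _).1
  have hG1 : ∀ u x, G u x ≤ 1 := fun u x => (hg _).2
  have hD1 : ∀ x, D F x l (k + 1) = F.τ l (blk x (k.val + 1) l) := by
    intro x
    by_cases h : k = Fin.last R
    · have hl0 : l = 0 := by
        subst h
        simp only [Fin.val_last] at hk
        omega
      subst hl0
      unfold D
      congr 1
      funext i
      exact i.elim0
    · unfold D
      rw [Fin.val_add_one, if_neg h]
  have hpt : ∀ x, g (D F x) - P F l k g (D F x) =
      ∑ u ∈ Finset.range (F.N (l + 1)), Δ u x * G u x := by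
    intro x
    have e1 : g (D F x) = ∑ u ∈ Finset.range (F.N (l + 1)),
        (if F.τ (l + 1) (blk x k (l + 1)) = u then 1 else 0) * G u x := by
      rw [Finset.sum_eq_single (D F x (l + 1) k)]
      · simp only [G]
        rw [upd_self, if_pos (show F.τ (l + 1) (blk x k (l + 1)) = D F x (l + 1) k from rfl),
          one_mul]
      · intro u _ hu
        rw [if_neg (fun h => hu h.symm), zero_mul]
      · intro h
        exact absurd (Finset.mem_range.mpr (D_lt F x (l + 1) k)) h
    rw [e1]
    unfold P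
    rw [← Finset.sum_sub_distrib]
    refine Finset.sum_congr rfl fun u _ => ?_
    rw [hD1 x]
    show _ - F.K l u (F.τ l (blk x k l)) _ * G u x = _
    simp only [Δ]
    ring
  rw [← It_sub_f]
  rw [show (fun x => g (D F x) - P F l k g (D F x)) = fun x =>
    ∑ u ∈ Finset.range (F.N (l + 1)), Δ u x * G u x from funext hpt, It_sum_f]
  -- each term is small
  have hterm : ∀ u ∈ Finset.range (F.N (l + 1)),
      |It m 0 (R + 1) (fun x => Δ u x * G u x) (fun _ => 0)| ≤ δ / F.N (l + 1) := by
    intro u hu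
    obtain ⟨q, hq⟩ : ∃ q, R + 1 = k.val + ((l + 1) + q) := ⟨R + 1 - (k.val + (l + 1)), by omega⟩
    rw [hq, It_add, zero_add]
    refine It_abs_le m 0 _ (fun x => ?_) _
    rw [It_add]
    have e1 : It m k.val (l + 1) (It m (k.val + (l + 1)) q (fun x => Δ u x * G u x)) x =
        It m k.val (l + 1) (fun x => Δ u x * It m (k.val + (l + 1)) q (G u) x) x := by
      refine It_congr m _ _ x fun w => ?_
      refine It_pull m _ _ (Δ u) (G u) ?_ _
      intro x y hxy
      have e2 : ∀ j n, j + n ≤ k.val + (l + 1) → blk x j n = blk y j n := by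
        intro j n hjn
        funext i
        exact hxy _ (by have := i.isLt; omega)
      simp only [Δ]
      rw [e2 k.val (l + 1) le_rfl, e2 k.val l (by omega), e2 (k.val + 1) l (by omega)]
    rw [e1]
    -- the function of two blocks
    let N' : ℕ → ℕ := F.N
    let Q := (i : Fin (l + 2)) → Fin (R + 1) → Fin (F.N i)
    let p : (Fin l → ℕ) → Q := fun a i j => ⟨D F (splice x k.val a) i j, D_lt F _ _ _⟩
    let mix : Q → (ℕ → ℕ) → Dg R := fun c x' l' j =>
      if l' = l + 1 ∧ j = k then u
      else if j ≤ k then (if h : l' < l + 2 then (c ⟨l', h⟩ j : ℕ) else 0) else D F x' l' j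
    let Φ : Q → (Fin l → ℕ) → ℝ := fun c b =>
      It m (k.val + (l + 1)) q (fun x' => g (mix c x')) (splice x (k.val + 1) b)
    let GG : (Fin l → ℕ) → (Fin l → ℕ) → ℝ := fun a b => Φ (p a) b
    have hfin : (Set.range GG).Finite := by
      have : Set.range GG ⊆ Set.range Φ := by
        rintro _ ⟨a, rfl⟩
        exact ⟨p a, rfl⟩
      exact (Set.finite_range Φ).subset this
    have h0 : ∀ a b, 0 ≤ GG a b := fun a b =>
      It_nonneg m _ _ (Bd.of_unit (fun x => (hg _).1) fun x => (hg _).2) (fun x => (hg _).1) _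
    have h1 : ∀ a b, GG a b ≤ 1 := fun a b =>
      It_le_one m _ _ (fun x => (hg _).1) (fun x => (hg _).2) _
    have hreg := F.reg l hl GG hfin h0 h1 u (Finset.mem_range.mp hu)
    refine Eq.trans_le (congrArg _ ?_) hreg
    unfold It
    congr 1
    funext w
    have hw0 : blk (splice x k.val w) k.val (l + 1) = w := by
      funext i
      exact splice_add x k.val w i
    have hw1 : blk (splice x k.val w) k.val l = Fin.init w := by
      funext i
      have := splice_add x k.val w (Fin.castSucc i)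
      exact this
    have hw2 : blk (splice x k.val w) (k.val + 1) l = Fin.tail w := by
      funext i
      have := splice_add x k.val w (Fin.succ i)
      show splice x k.val w (k.val + 1 + i) = w (Fin.succ i)
      rw [← this, Fin.val_succ]
      congr 1
      ring
    simp only [Δ]
    rw [hw0, hw1, hw2]
    congr 1
    show It m (k.val + (l + 1)) q (G u) (splice x k.val w) =
      It m (k.val + (l + 1)) q (fun x' => g (mix (p (Fin.init w)) x'))
        (splice x (k.val + 1) (Fin.tail w))
    unfold It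
    congr 1
    funext z
    simp only [G]
    -- values of the sequences
    have hv1 : ∀ n, n + 1 < k.val + (l + 1) →
        splice (splice x k.val w) (k.val + (l + 1)) z n = splice x k.val (Fin.init w) n := by
      intro n hn
      rw [splice_of_lt _ _ _ (by omega)]
      by_cases h : n < k.val
      · rw [splice_of_lt _ _ _ h, splice_of_lt _ _ _ h]
      · obtain ⟨i, rfl⟩ : ∃ i, n = k.val + i := ⟨n - k.val, by omega⟩
        have e1 := splice_add x k.val w (Fin.castSucc ⟨i, by omega⟩)
        have e2 := splice_add x k.val (Fin.init w) ⟨i, by omega⟩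
        exact e1.trans e2.symm
    have hv2 : ∀ n, k.val + 1 ≤ n →
        splice (splice x k.val w) (k.val + (l + 1)) z n =
          splice (splice x (k.val + 1) (Fin.tail w)) (k.val + (l + 1)) z n := by
      intro n hn
      by_cases h : n < k.val + (l + 1)
      · rw [splice_of_lt _ _ _ h, splice_of_lt _ _ _ h]
        obtain ⟨i, rfl⟩ : ∃ i, n = k.val + 1 + i := ⟨n - (k.val + 1), by omega⟩
        have e1 := splice_add x k.val w (Fin.succ ⟨i, by omega⟩)
        have e2 := splice_add x (k.val + 1) (Fin.tail w) ⟨i, by omega⟩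
        rw [e2]
        show _ = w (Fin.succ ⟨i, by omega⟩)
        rw [← e1, Fin.val_succ]
        congr 1
        show k.val + 1 + i = k.val + (i + 1)
        ring
      · by_cases h' : n < k.val + (l + 1) + q
        · obtain ⟨i, rfl⟩ : ∃ i, n = k.val + (l + 1) + i := ⟨n - (k.val + (l + 1)), by omega⟩
          have e1 := splice_add (splice x k.val w) (k.val + (l + 1)) z ⟨i, by omega⟩
          have e2 := splice_add (splice x (k.val + 1) (Fin.tail w)) (k.val + (l + 1)) z ⟨i, by omega⟩
          exact e1.trans e2.symm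
        · rw [splice_of_ge _ _ _ (by omega), splice_of_ge _ _ _ (by omega),
            splice_of_ge _ _ _ (by omega), splice_of_ge _ _ _ (by omega)]
    -- compare the diagrams
    have hcomp : ∀ l' ≤ l + 1, ∀ j : Fin (R + 1), j.val + l' ≤ R + 1 →
        upd (D F (splice (splice x k.val w) (k.val + (l + 1)) z)) (l + 1) k u l' j =
          mix (p (Fin.init w)) (splice (splice x (k.val + 1) (Fin.tail w)) (k.val + (l + 1)) z)
            l' j := by
      intro l' hl' j hj
      simp only [mix]
      by_cases hc : l' = l + 1 ∧ j = k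
      · rw [if_pos hc, hc.1, hc.2, upd_same]
      · rw [if_neg hc]
        have e1 : upd (D F (splice (splice x k.val w) (k.val + (l + 1)) z)) (l + 1) k u l' j =
            D F (splice (splice x k.val w) (k.val + (l + 1)) z) l' j := by
          by_cases h2 : l' = l + 1
          · subst h2
            rw [upd_ne_pos]
            intro h3
            exact hc ⟨rfl, h3⟩
          · rw [upd_ne_lev _ _ _ _ h2]
        rw [e1]
        by_cases hjk : j ≤ k
        · rw [if_pos hjk, dif_pos (by omega : l' < l + 2)]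
          show F.τ l' _ = F.τ l' _
          congr 1
          funext i
          refine hv1 _ ?_
          have hi := i.isLt
          have hjk' : j.val ≤ k.val := hjk
          by_cases h2 : l' = l + 1
          · have h3 : j ≠ k := fun h3 => hc ⟨h2, h3⟩
            have h4 : j.val ≠ k.val := fun h4 => h3 (Fin.ext h4)
            omega
          · omega
        · rw [if_neg hjk]
          show F.τ l' _ = F.τ l' _
          congr 1
          funext i
          refine hv2 _ ?_
          have : k.val < j.val := not_le.mp hjk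
          omega
    exact hdep _ _ (fun l' hl' j hj => hcomp l' hl'.le j hj) (fun j _ hj => hcomp (l + 1) le_rfl j hj)
  calc |∑ u ∈ Finset.range (F.N (l + 1)), It m 0 (R + 1) (fun x => Δ u x * G u x) (fun _ => 0)|
      ≤ ∑ u ∈ Finset.range (F.N (l + 1)),
        |It m 0 (R + 1) (fun x => Δ u x * G u x) (fun _ => 0)| := Finset.abs_sum_le_sum_abs _ _
    _ ≤ ∑ u ∈ Finset.range (F.N (l + 1)), δ / F.N (l + 1) := Finset.sum_le_sum hterm
    _ = δ := by
        have hpos : 0 < F.N (l + 1) := lt_of_le_of_lt (Nat.zero_le _) (F.lt (l + 1) (fun _ => 0))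
        rw [Finset.sum_const, Finset.card_range, nsmul_eq_mul]
        field_simp

end ops

end Pool.Agent.X330.PS
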