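import Pool.Agent.X330.PS.Window

set_option autoImplicit false
set_option linter.unusedVariables false

namespace Pool.Agent.X330.PS

open Classical

/-- the mass of the pairs of colours where the first mass does not exceed the second one -/
theorem bad_mass (μ ν : Mean ℕ) (F : ℕ → ℕ → ℝ) (h0 : ∀ a b, 0 ≤ F a b) (h1 : ∀ a b, F a b ≤ 1)
    {T : Type} [Fintype T] (χ : ℕ → T) :
    μ.f (fun a => ν.f (fun b => F a b * (if l2 μ ν F (χ ⁻¹' {χ a}) (χ ⁻¹' {χ b}) <
      l1 μ ν F (χ ⁻¹' {χ a}) (χ ⁻¹' {χ b}) then 0 else 1))) ≤ val μ ν F χ Set.univ Set.univ := by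
  let W : T → T → ℝ := fun p q => if l2 μ ν F (χ ⁻¹' {p}) (χ ⁻¹' {q}) <
      l1 μ ν F (χ ⁻¹' {p}) (χ ⁻¹' {q}) then 0 else 1
  have e1 : μ.f (fun a => ν.f (fun b => F a b * (if l2 μ ν F (χ ⁻¹' {χ a}) (χ ⁻¹' {χ b}) <
      l1 μ ν F (χ ⁻¹' {χ a}) (χ ⁻¹' {χ b}) then 0 else 1))) =
      ∑ p : T, ∑ q : T, W p q * l1 μ ν F (χ ⁻¹' {p}) (χ ⁻¹' {q}) := by
    have e2 : ∀ p q, W p q * l1 μ ν F (χ ⁻¹' {p}) (χ ⁻¹' {q}) =
        μ.f (fun a => ν.f (fun b => W p q * (ind (χ ⁻¹' {p}) a * ind (χ ⁻¹' {q}) b * F a b))) := by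
      intro p q
      unfold l1
      rw [← μ.mul_f]
      congr 1
      funext a
      rw [← ν.mul_f]
    simp only [e2]
    rw [← Finset.sum_congr rfl (fun p _ => μ.sum_f Finset.univ _), ← μ.sum_f Finset.univ]
    congr 1
    funext a
    rw [← Finset.sum_congr rfl (fun p _ => ν.sum_f Finset.univ _), ← ν.sum_f Finset.univ]
    congr 1
    funext b
    rw [Finset.sum_eq_single (χ a), Finset.sum_eq_single (χ b)]
    · simp [W, ind]
    · intro q _ hq
      have : ind (χ ⁻¹' {q}) b = 0 := by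
        unfold ind
        rw [if_neg]
        intro h
        exact hq h.symm
      rw [this]
      ring
    · intro h
      exact absurd (Finset.mem_univ _) h
    · intro p _ hp
      refine Finset.sum_eq_zero fun q _ => ?_
      have : ind (χ ⁻¹' {p}) a = 0 := by
        unfold ind
        rw [if_neg]
        intro h
        exact hp h.symm
      rw [this]
      ring
    · intro h
      exact absurd (Finset.mem_univ _) h
  rw [e1]
  unfold val
  refine Finset.sum_le_sum fun p _ => Finset.sum_le_sum fun q _ => ?_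
  rw [Set.univ_inter, Set.univ_inter]
  simp only [W]
  split_ifs with h
  · rw [zero_mul]
    exact min_nonneg' μ ν F h0 h1 _ _
  · rw [one_mul]
    exact le_min le_rfl (not_lt.mp h)

/-- the function of two blocks -/
noncomputable def Fc (S : Set ℕ) (c a b : ℕ) : ℝ := ind S (c * (a * b))

theorem Fc_symm (S : Set ℕ) (c : ℕ) : (fun b a => Fc S c a b) = Fc S c := by
  funext a b
  unfold Fc
  rw [mul_comm b a]

/-- the mass of a pair of colours -/
noncomputable def lam (m : Mean ℕ) (S : Set ℕ) (c : ℕ) {C : ℕ} (χ : ℕ → Fin C) (s s' p q : ℕ) : ℝ :=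
  l1 (mu m s) (mu m s') (Fc S c) {n | (χ n : ℕ) = p} {n | (χ n : ℕ) = q}

theorem lam_eq (m : Mean ℕ) (S : Set ℕ) (c : ℕ) {C : ℕ} (χ : ℕ → Fin C) (s s' : ℕ) (p q : Fin C) :
    l1 (mu m s) (mu m s') (Fc S c) (χ ⁻¹' {p}) (χ ⁻¹' {q}) = lam m S c χ s s' p q := by
  have e : ∀ p : Fin C, χ ⁻¹' {p} = {n | (χ n : ℕ) = p} := by
    intro p
    ext n
    simp only [Set.mem_preimage, Set.mem_singleton_iff, Fin.ext_iff]
    rfl
  unfold lam
  rw [e p, e q]

theorem lam_eq' (m : Mean ℕ) (S : Set ℕ) (c : ℕ) {C : ℕ} (χ : ℕ → Fin C) (s s' : ℕ) (p q : Fin C) :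
    l2 (mu m s) (mu m s') (Fc S c) (χ ⁻¹' {p}) (χ ⁻¹' {q}) = lam m S c χ s' s q p := by
  rw [l2_eq, Fc_symm, lam_eq]

/-- the good pairs of colours -/
def Good (m : Mean ℕ) (S : Set ℕ) (c : ℕ) {C : ℕ} (χ : ℕ → Fin C) (s s' p q : ℕ) : Prop :=
  lam m S c χ s' s q p < lam m S c χ s s' p q

/-- the good event -/
def GE (m : Mean ℕ) (S : Set ℕ) (c : ℕ) {C : ℕ} (χ : ℕ → Fin C) {R : ℕ} (ρ : ℕ → ℕ → ℕ)
    (t : Dg R) : Prop :=
  ∀ s s' (h1 : 1 ≤ s) (h2 : 1 ≤ s') (h : s + s' = R + 1),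
    Good m S c χ s s' (ρ s (t s 0)) (ρ s' (t s' ⟨s, by omega⟩))

theorem GE_dep (m : Mean ℕ) (S : Set ℕ) (c : ℕ) {C : ℕ} (χ : ℕ → Fin C) {R : ℕ} (ρ : ℕ → ℕ → ℕ) :
    Dep R Set.univ (fun t : Dg R => if GE m S c χ ρ t then (1 : ℝ) else 0) := by
  intro t t' h1 h2
  have h3 : ∀ l ≤ R, ∀ j : Fin (R + 1), j.val + l ≤ R + 1 → t l j = t' l j := by
    intro l hl j hj
    rcases hl.lt_or_eq with h | h
    · exact h1 l h j hj
    · subst h
      exact h2 j (Set.mem_univ _) hj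
  have h4 : GE m S c χ ρ t ↔ GE m S c χ ρ t' := by
    unfold GE
    constructor
    · intro H s s' a1 a2 a3
      have := H s s' a1 a2 a3
      rwa [h3 s (by omega) 0 (by simp; omega), h3 s' (by omega) ⟨s, by omega⟩ (by simp; omega)] at this
    · intro H s s' a1 a2 a3
      have := H s s' a1 a2 a3
      rwa [← h3 s (by omega) 0 (by simp; omega), ← h3 s' (by omega) ⟨s, by omega⟩ (by simp; omega)] at this
  simp only [h4]

theorem GE_disj (m : Mean ℕ) (S : Set ℕ) (c : ℕ) {C : ℕ} (χ : ℕ → Fin C) {R : ℕ} (ρ : ℕ → ℕ → ℕ)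
    (t : Dg R) {i j : ℕ} (hij : i < j) (hj : j < R + 1) (hi' : GE m S c χ ρ (rot^[i] t))
    (hj' : GE m S c χ ρ (rot^[j] t)) : False := by
  have e1 := hi' (j - i) (R + 1 - (j - i)) (by omega) (by omega) (by omega)
  have e2 := hj' (R + 1 - (j - i)) (j - i) (by omega) (by omega) (by omega)
  rw [rot_iter, rot_iter] at e1 e2
  have a1 : addn (0 : Fin (R + 1)) i = ⟨i, by omega⟩ := by
    apply Fin.ext
    show ((0 : Fin (R + 1)).val + i) % (R + 1) = i
    rw [Fin.val_zero, zero_add, Nat.mod_eq_of_lt (by omega)]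
  have a2 : addn (0 : Fin (R + 1)) j = ⟨j, by omega⟩ := by
    apply Fin.ext
    show ((0 : Fin (R + 1)).val + j) % (R + 1) = j
    rw [Fin.val_zero, zero_add, Nat.mod_eq_of_lt (by omega)]
  have a3 : addn (⟨j - i, by omega⟩ : Fin (R + 1)) i = ⟨j, by omega⟩ := by
    apply Fin.ext
    show (j - i + i) % (R + 1) = j
    rw [Nat.mod_eq_of_lt (by omega)]
    omega
  have a4 : addn (⟨R + 1 - (j - i), by omega⟩ : Fin (R + 1)) j = ⟨i, by omega⟩ := by
    apply Fin.ext
    show (R + 1 - (j - i) + j) % (R + 1) = i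
    rw [show R + 1 - (j - i) + j = i + (R + 1) by omega, Nat.add_mod_right,
      Nat.mod_eq_of_lt (by omega)]
  rw [a1, a3] at e1
  rw [a2, a4] at e2
  unfold Good at e1 e2
  exact lt_asymm e1 e2

/-- **The main theorem for natural numbers.** -/
theorem main (S : Set ℕ) (L : ℕ) (hS : ∀ n, 1 ≤ n → ∃ h ≤ L, n + h ∈ S) :
    ∃ (c : ℕ) (A B : Set ℕ), 1 ≤ c ∧ A.Infinite ∧ B.Infinite ∧ ∀ a ∈ A, ∀ b ∈ B,
      c * (a * b) ∈ S := by
  by_contra hcon
  obtain ⟨m, hm, hz⟩ := exists_mean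
  have hm' : Inv m := hm
  -- number of factors
  obtain ⟨R, hR⟩ : ∃ R, R = L + 1 := ⟨_, rfl⟩
  obtain ⟨c, hc, hcL⟩ := exists_c hm' S L hS (R + 1)
  have hR0 : (0 : ℝ) < R := by rw [hR]; positivity
  have hR1 : (0 : ℝ) < (R : ℝ) + 1 := by positivity
  obtain ⟨ε, hε0, hε⟩ : ∃ ε : ℝ, 0 < ε ∧ 2 * (R * (R + 1)) * ε < 1 / (R * (R + 1)) := by
    refine ⟨1 / (3 * (R * (R + 1)) ^ 2), by positivity, ?_⟩
    rw [mul_one_div, div_lt_div_iff₀ (by positivity) (by positivity)]
    have : (0 : ℝ) < (R * (R + 1)) ^ 2 := by positivity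
    nlinarith
  -- the two block theorem for every splitting
  have h01 : ∀ a b, Fc S c a b = 0 ∨ Fc S c a b = 1 := by
    intro a b
    unfold Fc ind
    split_ifs
    · exact Or.inr rfl
    · exact Or.inl rfl
  have h0 : ∀ a b, 0 ≤ Fc S c a b := fun a b => ind_nonneg _ _
  have h1 : ∀ a b, Fc S c a b ≤ 1 := fun a b => ind_le_one _ _
  have hfree : ¬ ∃ A B : Set ℕ, A.Infinite ∧ B.Infinite ∧ ∀ a ∈ A, ∀ b ∈ B, Fc S c a b = 1 := by
    rintro ⟨A, B, hA, hB, hAB⟩
    refine hcon ⟨c, A, B, hc, hA, hB, fun a ha b hb => ?_⟩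
    have := hAB a ha b hb
    unfold Fc ind at this
    by_contra h
    rw [if_neg h] at this
    norm_num at this
  have htb : ∀ s : Fin (R + 1), ∃ (k : ℕ) (χ : ℕ → Fin k), 1 ≤ s.val →
      val (mu m s.val) (mu m (R + 1 - s.val)) (Fc S c) χ Set.univ Set.univ < ε := by
    intro s
    by_cases hs : 1 ≤ s.val
    · obtain ⟨k, χ, h⟩ := two_block (mu m s.val) (mu m (R + 1 - s.val)) (Fc S c) h01
        (fun N => mu_null hm' hz _ hs N) (fun N => mu_null hm' hz _ (by omega) N) hfree hε0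
      exact ⟨k, χ, fun _ => h⟩
    · exact ⟨1, fun _ => 0, fun h => absurd h hs⟩
  choose kk χχ hχχ using htb
  let T := (s : Fin (R + 1)) → Fin (kk s)
  let e : T ≃ Fin (Fintype.card T) := Fintype.equivFin T
  let χ : ℕ → Fin (Fintype.card T) := fun n => e (fun s => χχ s n)
  have hχ : ∀ s : Fin (R + 1), 1 ≤ s.val →
      val (mu m s.val) (mu m (R + 1 - s.val)) (Fc S c) χ Set.univ Set.univ < ε := by
    intro s hs
    refine lt_of_le_of_lt ?_ (hχχ s hs)
    have h2 := val_refine (mu m s.val) (mu m (R + 1 - s.val)) (Fc S c) h0 h1 χ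
      (fun u => e.symm u s) Set.univ Set.univ
    have h3 : (fun u => e.symm u s) ∘ χ = χχ s := by
      funext n
      simp [χ]
    rw [h3] at h2
    exact h2
  -- the tower
  obtain ⟨F, hF⟩ := exists_fam m hε0 (fun l y => ((χ (prd y)) : ℕ)) (fun _ => Fintype.card T)
    (fun l y => (χ (prd y)).isLt) R
  choose! ρ hρ using hF
  let g : Dg R → ℝ := fun t => if GE m S c χ ρ t then (1 : ℝ) else 0
  have hg : Un g := by
    intro t
    simp only [g]
    split_ifs <;> norm_num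
  have hdep : Dep R Set.univ g := GE_dep m S c χ ρ
  have hsum : ∀ t, ∑ j ∈ Finset.range (R + 1), g (rot^[j] t) ≤ 1 := by
    intro t
    by_cases hex : ∃ j ∈ Finset.range (R + 1), GE m S c χ ρ (rot^[j] t)
    · obtain ⟨j, hj, hjG⟩ := hex
      rw [Finset.sum_eq_single j]
      · exact (hg _).2
      · intro i hi hij
        simp only [g]
        rw [if_neg]
        intro hiG
        rcases lt_or_gt_of_ne hij with h | h
        · exact GE_disj m S c χ ρ t h (Finset.mem_range.mp hj) hiG hjG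
        · exact GE_disj m S c χ ρ t h (Finset.mem_range.mp hi) hjG hiG
      · intro h
        exact absurd hj h
    · push Not at hex
      rw [Finset.sum_eq_zero]
      · exact zero_le_one
      · intro j hj
        simp only [g]
        rw [if_neg (hex j hj)]
  have hrot := rotated F hε0.le hg hdep hsum
  have hclose := PP_close F hε0.le R le_rfl hg hdep
  -- the expectation of the indicator
  have hE : Ar m (R + 1) (ind S) c =
      It m 0 (R + 1) (fun x => ind S (c * prd (blk x 0 (R + 1)))) (fun _ => 0) := by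
    unfold Ar It
    congr 1
    funext w
    have e1 : blk (splice (fun _ => 0) 0 w) 0 (R + 1) = w := by
      funext i
      exact splice_add (fun _ => 0) 0 w i
    show ind S (c * prd w) = ind S (c * prd (blk (splice (fun _ => 0) 0 w) 0 (R + 1)))
    rw [e1]
  let bad : ℕ → (ℕ → ℕ) → ℝ := fun s x => Fc S c (prd (blk x 0 s)) (prd (blk x s (R + 1 - s))) *
    (if l2 (mu m s) (mu m (R + 1 - s)) (Fc S c) (χ ⁻¹' {χ (prd (blk x 0 s))})
        (χ ⁻¹' {χ (prd (blk x s (R + 1 - s)))}) <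
      l1 (mu m s) (mu m (R + 1 - s)) (Fc S c) (χ ⁻¹' {χ (prd (blk x 0 s))})
        (χ ⁻¹' {χ (prd (blk x s (R + 1 - s)))}) then 0 else 1)
  have hbad0 : ∀ s x, 0 ≤ bad s x := by
    intro s x
    refine mul_nonneg (h0 _ _) ?_
    split_ifs <;> norm_num
  have hbad1 : ∀ s x, bad s x ≤ 1 := by
    intro s x
    simp only [bad]
    have := h0 (prd (blk x 0 s)) (prd (blk x s (R + 1 - s)))
    have := h1 (prd (blk x 0 s)) (prd (blk x s (R + 1 - s)))
    split_ifs <;> linarith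
  have hpt : ∀ x, ind S (c * prd (blk x 0 (R + 1))) ≤
      g (D F x) + ∑ s ∈ Finset.Icc 1 R, bad s x := by
    intro x
    have hb : 0 ≤ ∑ s ∈ Finset.Icc 1 R, bad s x := Finset.sum_nonneg fun s _ => hbad0 s x
    by_cases hG : GE m S c χ ρ (D F x)
    · have : g (D F x) = 1 := by simp only [g]; rw [if_pos hG]
      rw [this]
      linarith [ind_le_one S (c * prd (blk x 0 (R + 1)))]
    · have hG' : g (D F x) = 0 := by simp only [g]; rw [if_neg hG]
      rw [hG', zero_add]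
      unfold GE at hG
      push Not at hG
      obtain ⟨s, s', a1, a2, a3, hn⟩ := hG
      have hs' : s' = R + 1 - s := by omega
      have hle := Finset.single_le_sum (f := fun s => bad s x) (fun i _ => hbad0 i x)
        (Finset.mem_Icc.mpr ⟨a1, by omega⟩ : s ∈ Finset.Icc 1 R)
      refine le_trans (le_of_eq ?_) hle
      have e1 : ρ s (D F x s 0) = (χ (prd (blk x 0 s)) : ℕ) := (hρ s (by omega) _).symm
      have e2 : ρ s' (D F x s' ⟨s, by omega⟩) = (χ (prd (blk x s s')) : ℕ) :=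
        (hρ s' (by omega) _).symm
      rw [e1, e2] at hn
      unfold Good at hn
      simp only [bad]
      rw [← hs', lam_eq, lam_eq', if_neg hn, mul_one]
      unfold Fc
      rw [← prd_blk, a3]
  have hbadE : ∀ s ∈ Finset.Icc 1 R, It m 0 (R + 1) (bad s) (fun _ => 0) ≤ ε := by
    intro s hs
    rw [Finset.mem_Icc] at hs
    have h2 := bad_mass (mu m s) (mu m (R + 1 - s)) (Fc S c) h0 h1 χ
    have h3 := hχ ⟨s, by omega⟩ hs.1
    have h4 := split m s (R + 1 - s) (fun a b => Fc S c a b *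
      (if l2 (mu m s) (mu m (R + 1 - s)) (Fc S c) (χ ⁻¹' {χ a}) (χ ⁻¹' {χ b}) <
        l1 (mu m s) (mu m (R + 1 - s)) (Fc S c) (χ ⁻¹' {χ a}) (χ ⁻¹' {χ b}) then 0 else 1))
      (fun _ => 0)
    rw [show s + (R + 1 - s) = R + 1 by omega] at h4
    have h5 : It m 0 (R + 1) (bad s) (fun _ => 0) ≤ _ := h4.le.trans h2
    exact h5.trans h3.le
  have hmain : Ar m (R + 1) (ind S) c ≤
      It m 0 (R + 1) (fun x => g (D F x)) (fun _ => 0) + R * ε := by
    rw [hE]
    have hgb : Bd (fun x => g (D F x)) := Bd.of_unit (fun x => (hg _).1) fun x => (hg _).2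
    have hsb : Bd (fun x => ∑ s ∈ Finset.Icc 1 R, bad s x) :=
      Bd.sum _ fun s _ => Bd.of_unit (hbad0 s) (hbad1 s)
    refine (It_mono m 0 (R + 1) ((ind_bd S).comp _) (hgb.add hsb) hpt _).trans ?_
    rw [It_add_f, It_sum_f]
    refine add_le_add le_rfl ?_
    calc ∑ s ∈ Finset.Icc 1 R, It m 0 (R + 1) (bad s) (fun _ => 0)
        ≤ ∑ s ∈ Finset.Icc 1 R, ε := Finset.sum_le_sum hbadE
      _ = R * ε := by rw [Finset.sum_const, Nat.card_Icc, nsmul_eq_mul]; simp
  -- conclusion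
  have hL : (L : ℝ) + 1 = R := by rw [hR]; push_cast; ring
  rw [hL] at hcL
  have h2 := (abs_le.mp hclose).2
  set V := PP F R g (D F (fun _ => 0)) with hV
  have h3 : V ≤ 1 / (R + 1) := by
    rw [le_div_iff₀ hR1]
    linarith
  have h4 : (1 : ℝ) / R ≤ 1 / (R + 1) + R * ((R + 1) * ε) + R * ε := by linarith
  have h5 : (1 : ℝ) / R - 1 / (R + 1) = 1 / (R * (R + 1)) := by
    field_simp
    ring
  have h6 : (R : ℝ) * ε ≤ R * (R + 1) * ε := by
    have : 0 < (R : ℝ) * R * ε := by positivity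
    nlinarith
  linarith

end Pool.Agent.X330.PS
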