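import Mathlib

set_option autoImplicit false

namespace Pool.Agent.X330.PS

open Filter Topology

/-- A mean on a type: a linear functional on all real functions which is positive on the bounded
ones. -/
structure Mean (X : Type) where
  f : (X → ℝ) →ₗ[ℝ] ℝ
  one : f (fun _ => 1) = 1
  nonneg : ∀ φ : X → ℝ, (∃ C, ∀ x, |φ x| ≤ C) → (∀ x, 0 ≤ φ x) → 0 ≤ f φ

/-- the submodule of bounded functions -/
def bddSub (X : Type) : Submodule ℝ (X → ℝ) where
  carrier := {φ | ∃ C, ∀ x, |φ x| ≤ C}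
  add_mem' := by
    rintro φ ψ ⟨C, hC⟩ ⟨D, hD⟩
    exact ⟨C + D, fun x => (abs_add_le _ _).trans (add_le_add (hC x) (hD x))⟩
  zero_mem' := ⟨0, fun x => by simp⟩
  smul_mem' := by
    rintro c φ ⟨C, hC⟩
    exact ⟨|c| * C, fun x => by
      rw [Pi.smul_apply, smul_eq_mul, abs_mul]
      exact mul_le_mul_of_nonneg_left (hC x) (abs_nonneg _)⟩

/-- Limits of linear functionals along an ultrafilter. -/
theorem exists_ulim {X : Type} (U : Ultrafilter ℕ) (a : ℕ → (X → ℝ) →ₗ[ℝ] ℝ)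
    (ha : ∀ k (φ : X → ℝ) C, (∀ x, |φ x| ≤ C) → |a k φ| ≤ C) :
    ∃ f : (X → ℝ) →ₗ[ℝ] ℝ, ∀ φ : X → ℝ, (∃ C, ∀ x, |φ x| ≤ C) →
      Tendsto (fun k => a k φ) U (𝓝 (f φ)) := by
  have hlim : ∀ φ : bddSub X, ∃ l : ℝ, Tendsto (fun k => a k φ.1) U (𝓝 l) := by
    rintro ⟨φ, C, hC⟩
    have hcomp : IsCompact (Set.Icc (-C) C) := isCompact_Icc
    have hmem : ∀ k, a k φ ∈ Set.Icc (-C) C := fun k => abs_le.mp (ha k φ C hC)
    have hle : ((U.map (fun k => a k φ) : Ultrafilter ℝ) : Filter ℝ) ≤ 𝓟 (Set.Icc (-C) C) := by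
      rw [le_principal_iff]
      exact Filter.mem_map.mpr (Filter.univ_mem' hmem)
    obtain ⟨l, -, hl⟩ := hcomp.ultrafilter_le_nhds _ hle
    exact ⟨l, hl⟩
  choose L hL using hlim
  let g : bddSub X →ₗ[ℝ] ℝ :=
    { toFun := L
      map_add' := by
        intro φ ψ
        refine tendsto_nhds_unique (hL (φ + ψ)) ?_
        have := (hL φ).add (hL ψ)
        refine this.congr fun k => ?_
        show _ = a k (φ.1 + ψ.1)
        rw [map_add]
      map_smul' := by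
        intro c φ
        refine tendsto_nhds_unique (hL (c • φ)) ?_
        have := (hL φ).const_mul c
        refine this.congr fun k => ?_
        show _ = a k (c • φ.1)
        rw [map_smul, smul_eq_mul] }
  obtain ⟨f, hf⟩ := g.exists_extend
  refine ⟨f, fun φ hφ => ?_⟩
  have h1 : f φ = L ⟨φ, hφ⟩ := by
    have := LinearMap.congr_fun hf ⟨φ, hφ⟩
    exact this
  rw [h1]
  exact hL ⟨φ, hφ⟩

/-- A Banach limit. -/
theorem exists_banach : ∃ f : (ℕ → ℝ) →ₗ[ℝ] ℝ, f (fun _ => 1) = 1 ∧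
    (∀ φ : ℕ → ℝ, ∀ C, (∀ x, |φ x| ≤ C) → |f φ| ≤ C) ∧
    (∀ φ : ℕ → ℝ, (∃ C, ∀ x, |φ x| ≤ C) → (∀ x, 0 ≤ φ x) → 0 ≤ f φ) ∧
    (∀ φ : ℕ → ℝ, (∃ C, ∀ x, |φ x| ≤ C) → f (fun n => φ (n + 1)) = f φ) := by
  let a : ℕ → (ℕ → ℝ) →ₗ[ℝ] ℝ := fun k =>
    ((k : ℝ) + 1)⁻¹ • ∑ i ∈ Finset.range (k + 1), LinearMap.proj i
  have hav : ∀ k φ, a k φ = ((k : ℝ) + 1)⁻¹ * ∑ i ∈ Finset.range (k + 1), φ i := by
    intro k φ
    simp [a, LinearMap.sum_apply]
  have habs : ∀ k (φ : ℕ → ℝ) C, (∀ x, |φ x| ≤ C) → |a k φ| ≤ C := by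
    intro k φ C hC
    rw [hav, abs_mul, abs_inv, abs_of_pos (by positivity : (0 : ℝ) < (k : ℝ) + 1),
      inv_mul_le_iff₀ (by positivity)]
    calc |∑ i ∈ Finset.range (k + 1), φ i| ≤ ∑ i ∈ Finset.range (k + 1), |φ i| :=
          Finset.abs_sum_le_sum_abs _ _
      _ ≤ ∑ i ∈ Finset.range (k + 1), C := Finset.sum_le_sum fun i _ => hC i
      _ = ((k : ℝ) + 1) * C := by simp
  obtain ⟨f, hf⟩ := exists_ulim (Filter.hyperfilter ℕ) a habs
  have hU : ((Filter.hyperfilter ℕ : Ultrafilter ℕ) : Filter ℕ) ≤ atTop := by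
    rw [← Nat.cofinite_eq_atTop]
    exact Filter.hyperfilter_le_cofinite
  refine ⟨f, ?_, ?_, ?_, ?_⟩
  · refine tendsto_nhds_unique (hf (fun _ => 1) ⟨1, by simp⟩) ?_
    refine tendsto_const_nhds.congr fun k => ?_
    rw [hav]
    simp
    field_simp
  · intro φ C hC
    exact le_of_tendsto (hf φ ⟨C, hC⟩).abs (Filter.Eventually.of_forall fun k => habs k φ C hC)
  · intro φ hb hn
    refine ge_of_tendsto' (hf φ hb) fun k => ?_
    rw [hav]
    exact mul_nonneg (by positivity) (Finset.sum_nonneg fun i _ => hn i)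
  · rintro φ ⟨C, hC⟩
    have hC0 : 0 ≤ C := (abs_nonneg _).trans (hC 0)
    have h1 := hf (fun n => φ (n + 1)) ⟨C, fun x => hC _⟩
    have h2 := hf φ ⟨C, hC⟩
    have h3 : Tendsto (fun k => a k (fun n => φ (n + 1)) - a k φ)
        ((Filter.hyperfilter ℕ : Ultrafilter ℕ) : Filter ℕ) (𝓝 0) := by
      have h4 : Tendsto (fun k : ℕ => (2 * C) * ((k : ℝ) + 1)⁻¹) atTop (𝓝 0) := by
        have : Tendsto (fun k : ℕ => ((k : ℝ) + 1)⁻¹) atTop (𝓝 0) := by
          have := tendsto_one_div_add_atTop_nhds_zero_nat (𝕜 := ℝ)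
          simpa using this
        simpa using this.const_mul (2 * C)
      refine squeeze_zero_norm (fun k => ?_) (h4.mono_left hU)
      rw [hav, hav, ← mul_sub, ← Finset.sum_sub_distrib]
      have h5 : ∑ i ∈ Finset.range (k + 1), (φ (i + 1) - φ i) = φ (k + 1) - φ 0 :=
        Finset.sum_range_sub _ _
      rw [h5, Real.norm_eq_abs, abs_mul, abs_inv, abs_of_pos (by positivity : (0 : ℝ) < (k : ℝ) + 1),
        mul_comm]
      refine mul_le_mul_of_nonneg_right ?_ (by positivity)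
      calc |φ (k + 1) - φ 0| ≤ |φ (k + 1)| + |φ 0| := abs_sub _ _
        _ ≤ 2 * C := by linarith [hC (k + 1), hC 0]
    have h6 := tendsto_nhds_unique h3 (h1.sub h2)
    linarith

/-- **An invariant mean on the multiplicative semigroup of the positive integers.** -/
theorem exists_mean : ∃ m : Mean ℕ,
    (∀ a : ℕ, 1 ≤ a → ∀ φ : ℕ → ℝ, (∃ C, ∀ x, |φ x| ≤ C) → m.f (fun n => φ (a * n)) = m.f φ) ∧
    (∀ φ : ℕ → ℝ, (∀ x, 1 ≤ x → φ x = 0) → (∃ C, ∀ x, |φ x| ≤ C) → m.f φ = 0) := by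
  obtain ⟨L, L1, L2, L3, L4⟩ := exists_banach
  -- the operators
  let B : ℕ → (ℕ → ℝ) →ₗ[ℝ] (ℕ → ℝ) := fun a =>
    { toFun := fun φ x => L (fun n => φ (a ^ n * x))
      map_add' := by
        intro φ ψ
        funext x
        show L (fun n => (φ + ψ) (a ^ n * x)) = _
        have : (fun n => (φ + ψ) (a ^ n * x)) = (fun n => φ (a ^ n * x)) + fun n => ψ (a ^ n * x) :=
          rfl
        rw [this, map_add]
        rfl
      map_smul' := by
        intro c φ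
        funext x
        show L (fun n => (c • φ) (a ^ n * x)) = _
        have : (fun n => (c • φ) (a ^ n * x)) = c • (fun n => φ (a ^ n * x)) := rfl
        rw [this, map_smul]
        rfl }
  have hB : ∀ a φ x, B a φ x = L (fun n => φ (a ^ n * x)) := fun _ _ _ => rfl
  have hBb : ∀ a φ C, (∀ x, |φ x| ≤ C) → ∀ x, |B a φ x| ≤ C := by
    intro a φ C hC x
    rw [hB]
    exact L2 _ _ fun n => hC _
  let T : ℕ → (ℕ → ℝ) →ₗ[ℝ] (ℕ → ℝ) := fun k => Nat.rec LinearMap.id (fun k t => t.comp (B (k + 1))) k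
  have hT0 : ∀ φ, T 0 φ = φ := fun φ => rfl
  have hTs : ∀ k φ, T (k + 1) φ = T k (B (k + 1) φ) := fun k φ => rfl
  have hTb : ∀ k φ C, (∀ x, |φ x| ≤ C) → ∀ x, |T k φ x| ≤ C := by
    intro k
    induction k with
    | zero => intro φ C hC x; rw [hT0]; exact hC x
    | succ k ih => intro φ C hC x; rw [hTs]; exact ih _ C (hBb _ _ _ hC) x
  have hTn : ∀ k φ, (∃ C, ∀ x, |φ x| ≤ C) → (∀ x, 0 ≤ φ x) → ∀ x, 0 ≤ T k φ x := by
    intro k
    induction k with
    | zero => intro φ _ hC x; rw [hT0]; exact hC x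
    | succ k ih =>
      intro φ hb hC x
      rw [hTs]
      obtain ⟨C, hb⟩ := hb
      exact ih _ ⟨C, hBb _ _ _ hb⟩ (fun y => by rw [hB]; exact L3 _ ⟨C, fun n => hb _⟩ fun n => hC _) x
  have hT1 : ∀ k, T k (fun _ => 1) = fun _ => 1 := by
    intro k
    induction k with
    | zero => rfl
    | succ k ih =>
      rw [hTs]
      have : B (k + 1) (fun _ => 1) = fun _ => 1 := by
        funext x
        rw [hB]
        exact L1
      rw [this, ih]
  have hTz : ∀ k φ, (∀ x, 1 ≤ x → φ x = 0) → ∀ x, 1 ≤ x → T k φ x = 0 := by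
    intro k
    induction k with
    | zero => intro φ h x hx; rw [hT0]; exact h x hx
    | succ k ih =>
      intro φ h x hx
      rw [hTs]
      refine ih _ (fun y hy => ?_) x hx
      rw [hB]
      have : (fun n => φ ((k + 1) ^ n * y)) = fun _ => (0 : ℝ) := by
        funext n
        exact h _ (Nat.one_le_iff_ne_zero.mpr (by positivity))
      rw [this]
      have : (fun _ : ℕ => (0 : ℝ)) = 0 := rfl
      rw [this, map_zero]
  have hTinv : ∀ a, 1 ≤ a → ∀ k, a ≤ k → ∀ φ, (∃ C, ∀ x, |φ x| ≤ C) →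
      T k (fun n => φ (a * n)) = T k φ := by
    intro a ha k hk
    induction k, hk using Nat.le_induction with
    | base =>
      intro φ ⟨C, hC⟩
      obtain ⟨b, rfl⟩ : ∃ b, a = b + 1 := ⟨a - 1, by omega⟩
      rw [hTs, hTs]
      congr 1
      funext x
      rw [hB, hB]
      rw [← L4 (fun n => φ ((b + 1) ^ n * x)) ⟨C, fun n => hC _⟩]
      congr 1
      funext n
      congr 1
      ring
    | succ k hk ih =>
      intro φ ⟨C, hC⟩
      rw [hTs, hTs, ← ih (B (k + 1) φ) ⟨C, hBb _ _ _ hC⟩]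
      congr 1
      funext x
      rw [hB, hB]
      congr 1
      funext n
      congr 1
      ring
  let b : ℕ → (ℕ → ℝ) →ₗ[ℝ] ℝ := fun k => (LinearMap.proj 1).comp (T k)
  have hb : ∀ k φ, b k φ = T k φ 1 := fun k φ => rfl
  obtain ⟨f, hf⟩ := exists_ulim (Filter.hyperfilter ℕ) b (fun k φ C hC => hTb k φ C hC 1)
  refine ⟨⟨f, ?_, ?_⟩, ?_, ?_⟩
  · refine tendsto_nhds_unique (hf (fun _ => 1) ⟨1, by simp⟩) ?_
    refine tendsto_const_nhds.congr fun k => ?_
    rw [hb, hT1]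
  · intro φ hbd hn
    exact ge_of_tendsto' (hf φ hbd) fun k => hTn k φ hbd hn 1
  · rintro a ha φ ⟨C, hC⟩
    refine tendsto_nhds_unique (hf (fun n => φ (a * n)) ⟨C, fun x => hC _⟩) ?_
    refine (hf φ ⟨C, hC⟩).congr' ?_
    have hU : ((Filter.hyperfilter ℕ : Ultrafilter ℕ) : Filter ℕ) ≤ atTop := by
      rw [← Nat.cofinite_eq_atTop]
      exact Filter.hyperfilter_le_cofinite
    filter_upwards [hU (eventually_ge_atTop a)] with k hk
    rw [hb, hb, hTinv a ha k hk φ ⟨C, hC⟩]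
  · intro φ hz hbd
    refine tendsto_nhds_unique (hf φ hbd) ?_
    refine tendsto_const_nhds.congr fun k => ?_
    rw [hb, hTz k φ hz 1 le_rfl]

end Pool.Agent.X330.PS
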