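import Pool.Agent.X330.PS.Basic

set_option autoImplicit false
set_option linter.unusedVariables false

namespace Pool.Agent.X330.PS

open Classical

section energy

variable {Y : Type} (M : Mean Y)

/-- mass of a cell -/
noncomputable def cell {T : Type} (φ : Y → ℝ) (s : Y → T) (t : T) : ℝ :=
  M.f (fun y => φ y * (if s y = t then 1 else 0))

theorem sum_cell {T : Type} (φ : Y → ℝ) (s : Y → T) (S : Finset T) (hS : ∀ y, s y ∈ S)
    (g : T → ℝ) : M.f (fun y => φ y * g (s y)) = ∑ t ∈ S, g t * cell M φ s t := by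
  unfold cell
  rw [← Finset.sum_congr rfl (fun t _ => M.mul_f (g t) _), ← M.sum_f]
  congr 1
  funext y
  rw [Finset.sum_eq_single (s y)]
  · rw [if_pos rfl]; ring
  · intro t _ ht
    rw [if_neg (Ne.symm ht)]
    ring
  · intro h
    exact absurd (hS y) h

theorem bd_cell {T : Type} {φ : Y → ℝ} (h0 : ∀ y, 0 ≤ φ y) (h1 : ∀ y, φ y ≤ 1) (s : Y → T) (t : T) :
    Bd (fun y => φ y * (if s y = t then 1 else 0)) := by
  refine (Bd.of_unit h0 h1).mul (Bd.of_unit ?_ ?_) <;> intro y <;> split_ifs <;> norm_num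

theorem cell_nonneg {T : Type} {φ : Y → ℝ} (h0 : ∀ y, 0 ≤ φ y) (h1 : ∀ y, φ y ≤ 1)
    (s : Y → T) (t : T) : 0 ≤ cell M φ s t := by
  refine M.pos (bd_cell h0 h1 s t) fun y => mul_nonneg (h0 y) ?_
  split_ifs <;> norm_num

theorem cell_le {T : Type} {φ : Y → ℝ} (h0 : ∀ y, 0 ≤ φ y) (h1 : ∀ y, φ y ≤ 1)
    (s : Y → T) (t : T) : cell M φ s t ≤ cell M (fun _ => 1) s t := by
  refine M.mono (bd_cell h0 h1 s t) (bd_cell (fun _ => zero_le_one) (fun _ => le_rfl) s t) fun y => ?_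
  refine mul_le_mul_of_nonneg_right (h1 y) ?_
  split_ifs <;> norm_num

theorem sum_cell_one {T : Type} (s : Y → T) (S : Finset T) (hS : ∀ y, s y ∈ S) :
    ∑ t ∈ S, cell M (fun _ => 1) s t = 1 := by
  have h := sum_cell M (fun _ => 1) s S hS (fun _ => 1)
  simp only [one_mul, mul_one] at h
  rw [← h]
  exact M.one

theorem pyth {T T' : Type} (φ : Y → ℝ) (s' : Y → T') (s : Y → T) (ρ : T' → T)
    (hs : ∀ y, s y = ρ (s' y)) (S : Finset T)
    (S' : Finset T') (hS : ∀ y, s y ∈ S) (hS' : ∀ y, s' y ∈ S')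
    (K : T → ℝ) (hK : ∀ t, K t * cell M (fun _ => 1) s t = cell M φ s t)
    (K' : T' → ℝ) (hK' : ∀ t, K' t * cell M (fun _ => 1) s' t = cell M φ s' t) :
    ∑ t ∈ S', (K' t - K (ρ t)) ^ 2 * cell M (fun _ => 1) s' t =
      ∑ t ∈ S', K' t * cell M φ s' t - ∑ t ∈ S, K t * cell M φ s t := by
  have e1 : ∑ t ∈ S', K (ρ t) * cell M φ s' t = ∑ t ∈ S, K t * cell M φ s t := by
    rw [← sum_cell M φ s' S' hS' (fun t => K (ρ t)), ← sum_cell M φ s S hS K]
    simp only [hs]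
  have e2 : ∑ t ∈ S', K (ρ t) ^ 2 * cell M (fun _ => 1) s' t = ∑ t ∈ S, K t * cell M φ s t := by
    rw [← sum_cell M (fun _ => 1) s' S' hS' (fun t => K (ρ t) ^ 2)]
    have e3 : ∑ t ∈ S, K t * cell M φ s t = ∑ t ∈ S, K t ^ 2 * cell M (fun _ => 1) s t := by
      refine Finset.sum_congr rfl fun t _ => ?_
      rw [← hK t]
      ring
    rw [e3, ← sum_cell M (fun _ => 1) s S hS (fun t => K t ^ 2)]
    simp only [hs]
  have e4 : ∀ t, (K' t - K (ρ t)) ^ 2 * cell M (fun _ => 1) s' t =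
      K' t * cell M φ s' t - 2 * (K (ρ t) * cell M φ s' t) +
        K (ρ t) ^ 2 * cell M (fun _ => 1) s' t := by
    intro t
    rw [← hK' t]
    ring
  rw [Finset.sum_congr rfl (fun t _ => e4 t), Finset.sum_add_distrib, Finset.sum_sub_distrib,
    ← Finset.mul_sum, e1, e2]
  ring

theorem energy {T T' : Type} {φ : Y → ℝ} (h0 : ∀ y, 0 ≤ φ y) (h1 : ∀ y, φ y ≤ 1)
    (s' : Y → T') (s : Y → T) (ρ : T' → T)
    (hs : ∀ y, s y = ρ (s' y)) (S : Finset T)
    (S' : Finset T') (hS : ∀ y, s y ∈ S) (hS' : ∀ y, s' y ∈ S')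
    (K : T → ℝ) (hK : ∀ t, K t * cell M (fun _ => 1) s t = cell M φ s t)
    (K' : T' → ℝ) (hK' : ∀ t, K' t * cell M (fun _ => 1) s' t = cell M φ s' t)
    (Θ : T' → ℝ) (hΘ : ∀ t, |Θ t| ≤ 1) {ε : ℝ} (hε : 0 < ε) :
    |M.f (fun y => (φ y - K (s y)) * Θ (s' y))| ≤
      (∑ t ∈ S', K' t * cell M φ s' t - ∑ t ∈ S, K t * cell M φ s t) / (2 * ε) + ε / 2 := by
  have e1 : M.f (fun y => (φ y - K (s y)) * Θ (s' y)) =
      ∑ t ∈ S', Θ t * ((K' t - K (ρ t)) * cell M (fun _ => 1) s' t) := by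
    have e2 : (fun y => (φ y - K (s y)) * Θ (s' y)) =
        fun y => φ y * Θ (s' y) - 1 * (K (ρ (s' y)) * Θ (s' y)) := by
      funext y
      rw [hs y]
      ring
    rw [e2, M.sub_f, sum_cell M φ s' S' hS' Θ,
      sum_cell M (fun _ => 1) s' S' hS' (fun t => K (ρ t) * Θ t), ← Finset.sum_sub_distrib]
    refine Finset.sum_congr rfl fun t _ => ?_
    rw [← hK' t]
    ring
  have hc : ∀ t, 0 ≤ cell M (fun _ => 1) s' t := fun t =>
    cell_nonneg M (fun _ => zero_le_one) (fun _ => le_rfl) s' t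
  rw [e1, ← pyth M φ s' s ρ hs S S' hS hS' K hK K' hK']
  calc |∑ t ∈ S', Θ t * ((K' t - K (ρ t)) * cell M (fun _ => 1) s' t)|
      ≤ ∑ t ∈ S', |Θ t * ((K' t - K (ρ t)) * cell M (fun _ => 1) s' t)| :=
        Finset.abs_sum_le_sum_abs _ _
    _ ≤ ∑ t ∈ S', ((K' t - K (ρ t)) ^ 2 * cell M (fun _ => 1) s' t / (2 * ε) +
          ε / 2 * cell M (fun _ => 1) s' t) := by
        refine Finset.sum_le_sum fun t _ => ?_
        rw [abs_mul, abs_mul, abs_of_nonneg (hc t)]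
        set x := |K' t - K (ρ t)| with hx
        have hx0 : 0 ≤ x := abs_nonneg _
        have hx2 : (K' t - K (ρ t)) ^ 2 = x ^ 2 := (sq_abs _).symm
        rw [hx2]
        have h3 : x ≤ x ^ 2 / (2 * ε) + ε / 2 := by
          rw [div_add' _ _ _ (by positivity), le_div_iff₀ (by positivity)]
          nlinarith [sq_nonneg (x - ε)]
        have hcx : 0 ≤ x * cell M (fun _ => 1) s' t := mul_nonneg hx0 (hc t)
        calc |Θ t| * (x * cell M (fun _ => 1) s' t) ≤ 1 * (x * cell M (fun _ => 1) s' t) :=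
              mul_le_mul_of_nonneg_right (hΘ t) hcx
          _ = x * cell M (fun _ => 1) s' t := one_mul _
          _ ≤ (x ^ 2 / (2 * ε) + ε / 2) * cell M (fun _ => 1) s' t :=
              mul_le_mul_of_nonneg_right h3 (hc t)
          _ = _ := by ring
    _ = (∑ t ∈ S', (K' t - K (ρ t)) ^ 2 * cell M (fun _ => 1) s' t) / (2 * ε) + ε / 2 := by
        rw [Finset.sum_add_distrib, ← Finset.sum_div, ← Finset.mul_sum, sum_cell_one M s' S' hS',
          mul_one]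

end energy

/-- **The regularity lemma.** -/
theorem regularity {Y Y' : Type} (M : Mean Y) (pre suf : Y → Y') (τ : Y → ℕ) (N : ℕ)
    (hτ : ∀ y, τ y < N) (hN : 0 < N) (π : Y' → ℕ) (C : ℕ) (hπ : ∀ y, π y < C) {ε : ℝ} (hε : 0 < ε) :
    ∃ (k : ℕ) (σ : Y' → ℕ) (ρ : ℕ → ℕ) (K : ℕ → ℕ → ℕ → ℝ), (∀ y, σ y < k) ∧
      (∀ y, π y = ρ (σ y)) ∧ (∀ v u u', 0 ≤ K v u u') ∧
      (∀ u u', ∑ v ∈ Finset.range N, K v u u' = 1) ∧
      ∀ G : Y' → Y' → ℝ, (Set.range G).Finite → (∀ a b, 0 ≤ G a b) → (∀ a b, G a b ≤ 1) →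
        ∀ v < N, |M.f (fun y => ((if τ y = v then 1 else 0) - K v (σ (pre y)) (σ (suf y))) *
          G (pre y) (suf y))| ≤ ε := by
  let Φ : ℕ → Y → ℝ := fun v y => if τ y = v then 1 else 0
  have hΦ0 : ∀ v y, 0 ≤ Φ v y := fun v y => by simp only [Φ]; split_ifs <;> norm_num
  have hΦ1 : ∀ v y, Φ v y ≤ 1 := fun v y => by simp only [Φ]; split_ifs <;> norm_num
  have hΦs : ∀ y, ∑ v ∈ Finset.range N, Φ v y = 1 := by
    intro y
    simp only [Φ]
    rw [Finset.sum_ite_eq]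
    rw [if_pos (Finset.mem_range.mpr (hτ y))]
  let pr : (Y' → ℕ) → Y → ℕ × ℕ := fun σ y => (σ (pre y), σ (suf y))
  let K0 : ℕ → (Y' → ℕ) → ℕ × ℕ → ℝ := fun v σ t =>
    cell M (Φ v) (pr σ) t / cell M (fun _ => 1) (pr σ) t
  have hc0 : ∀ (σ : Y' → ℕ) t, 0 ≤ cell M (fun _ => 1) (pr σ) t := fun σ t =>
    cell_nonneg M (fun _ => zero_le_one) (fun _ => le_rfl) _ t
  have hd0 : ∀ v (σ : Y' → ℕ) t, 0 ≤ cell M (Φ v) (pr σ) t := fun v σ t =>
    cell_nonneg M (hΦ0 v) (hΦ1 v) _ t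
  have hdc : ∀ v (σ : Y' → ℕ) t, cell M (Φ v) (pr σ) t ≤ cell M (fun _ => 1) (pr σ) t :=
    fun v σ t => cell_le M (hΦ0 v) (hΦ1 v) _ t
  have hK0 : ∀ v σ t, K0 v σ t * cell M (fun _ => 1) (pr σ) t = cell M (Φ v) (pr σ) t := by
    intro v σ t
    simp only [K0]
    by_cases h : cell M (fun _ => 1) (pr σ) t = 0
    · rw [h, mul_zero]
      have h1 := hdc v σ t
      rw [h] at h1
      exact le_antisymm (hd0 v σ t) h1
    · exact div_mul_cancel₀ _ h
  have hK01 : ∀ v σ t, K0 v σ t ≤ 1 := fun v σ t => div_le_one_of_le₀ (hdc v σ t) (hc0 σ t)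
  let SS : ℕ → Finset (ℕ × ℕ) := fun k => Finset.range k ×ˢ Finset.range k
  let en : (Y' → ℕ) → ℕ → ℝ := fun σ k =>
    ∑ v ∈ Finset.range N, ∑ t ∈ SS k, K0 v σ t * cell M (Φ v) (pr σ) t
  have hSS : ∀ (σ : Y' → ℕ) k, (∀ y, σ y < k) → ∀ y, pr σ y ∈ SS k := by
    intro σ k h y
    simp only [pr, SS, Finset.mem_product, Finset.mem_range]
    exact ⟨h _, h _⟩
  have hds : ∀ (σ : Y' → ℕ) t, ∑ v ∈ Finset.range N, cell M (Φ v) (pr σ) t =
      cell M (fun _ => 1) (pr σ) t := by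
    intro σ t
    unfold cell
    rw [← M.sum_f]
    congr 1
    funext y
    rw [← Finset.sum_mul, hΦs]
  have hen1 : ∀ (σ : Y' → ℕ) k, (∀ y, σ y < k) → en σ k ≤ 1 := by
    intro σ k h
    calc en σ k ≤ ∑ v ∈ Finset.range N, ∑ t ∈ SS k, cell M (Φ v) (pr σ) t := by
          refine Finset.sum_le_sum fun v _ => Finset.sum_le_sum fun t _ => ?_
          calc K0 v σ t * cell M (Φ v) (pr σ) t ≤ 1 * cell M (Φ v) (pr σ) t :=
                mul_le_mul_of_nonneg_right (hK01 v σ t) (hd0 v σ t)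
            _ = _ := one_mul _
      _ = ∑ t ∈ SS k, cell M (fun _ => 1) (pr σ) t := by
          rw [Finset.sum_comm]
          exact Finset.sum_congr rfl fun t _ => hds σ t
      _ = 1 := sum_cell_one M _ _ (hSS σ k h)
  let En : Set ℝ := {e | ∃ (k : ℕ) (σ : Y' → ℕ) (ρ : ℕ → ℕ), (∀ y, σ y < k) ∧
    (∀ y, π y = ρ (σ y)) ∧ e = en σ k}
  have hEnb : BddAbove En := by
    refine ⟨1, ?_⟩
    rintro e ⟨k, σ, ρ, h1, h2, rfl⟩
    exact hen1 σ k h1
  have hEnn : En.Nonempty := ⟨_, C, π, id, hπ, fun y => rfl, rfl⟩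
  obtain ⟨e, ⟨k, σ, ρ, hσ, hρ, rfl⟩, he⟩ := exists_lt_of_lt_csSup hEnn
    (show sSup En - ε ^ 2 / 4 < sSup En by
      have : 0 < ε ^ 2 := by positivity
      linarith)
  -- every refinement has almost the same energy
  have hmax : ∀ (σ' : Y' → ℕ) (k' : ℕ) (ρ' : ℕ → ℕ), (∀ y, σ' y < k') → (∀ y, σ y = ρ' (σ' y)) →
      en σ' k' < en σ k + ε ^ 2 / 4 := by
    intro σ' k' ρ' h1 h2
    have : en σ' k' ≤ sSup En := le_csSup hEnb ⟨k', σ', ρ ∘ ρ', h1, fun y => by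
      rw [hρ y, h2 y]; rfl, rfl⟩
    linarith
  -- the kernel
  let K : ℕ → ℕ → ℕ → ℝ := fun v u u' =>
    if cell M (fun _ => 1) (pr σ) (u, u') = 0 then (if v = 0 then 1 else 0) else K0 v σ (u, u')
  have hKc : ∀ v t, K v t.1 t.2 * cell M (fun _ => 1) (pr σ) t = cell M (Φ v) (pr σ) t := by
    intro v t
    simp only [K]
    by_cases h : cell M (fun _ => 1) (pr σ) t = 0
    · rw [← hK0 v σ t, h, mul_zero, mul_zero]
    · rw [if_neg h]
      exact hK0 v σ t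
  have hKd : ∀ v t, K v t.1 t.2 * cell M (Φ v) (pr σ) t = K0 v σ t * cell M (Φ v) (pr σ) t := by
    intro v t
    by_cases h : cell M (fun _ => 1) (pr σ) t = 0
    · have : cell M (Φ v) (pr σ) t = 0 := by rw [← hK0 v σ t, h, mul_zero]
      rw [this, mul_zero, mul_zero]
    · simp only [K]
      rw [if_neg h]
  have hKnn : ∀ v u u', 0 ≤ K v u u' := by
    intro v u u'
    simp only [K]
    split_ifs
    · norm_num
    · norm_num
    · exact div_nonneg (hd0 v σ _) (hc0 σ _)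
  have hKle : ∀ v u u', K v u u' ≤ 1 := by
    intro v u u'
    simp only [K]
    split_ifs
    · norm_num
    · norm_num
    · exact hK01 v σ _
  refine ⟨k, σ, ρ, K, hσ, hρ, hKnn, ?_, ?_⟩
  · intro u u'
    simp only [K]
    by_cases h : cell M (fun _ => 1) (pr σ) (u, u') = 0
    · simp only [if_pos h]
      rw [Finset.sum_ite_eq']
      rw [if_pos (Finset.mem_range.mpr hN)]
    · simp only [if_neg h, K0]
      rw [← Finset.sum_div, hds σ, div_self h]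
  -- the main estimate, first for functions of finitely many colours
  have main : ∀ (σ' : Y' → ℕ) (k' : ℕ) (ρ' : ℕ → ℕ), (∀ y, σ' y < k') → (∀ y, σ y = ρ' (σ' y)) →
      ∀ Θ : ℕ × ℕ → ℝ, (∀ t, |Θ t| ≤ 1) → ∀ v < N,
      |M.f (fun y => (Φ v y - K v (σ (pre y)) (σ (suf y))) * Θ (pr σ' y))| ≤ ε / 2 := by
    intro σ' k' ρ' h1 h2 Θ hΘ v hv
    have hs : ∀ y, pr σ y = (fun t : ℕ × ℕ => (ρ' t.1, ρ' t.2)) (pr σ' y) := by
      intro y
      simp only [pr, h2]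
    have h3 := energy M (hΦ0 v) (hΦ1 v) (pr σ') (pr σ) (fun t : ℕ × ℕ => (ρ' t.1, ρ' t.2)) hs
      (SS k) (SS k') (hSS σ k hσ) (hSS σ' k' h1) (fun t => K v t.1 t.2) (hKc v) (K0 v σ')
      (hK0 v σ') Θ hΘ (half_pos hε)
    refine h3.trans ?_
    have h4 : ∀ w, ∑ t ∈ SS k, K0 w σ t * cell M (Φ w) (pr σ) t ≤
        ∑ t ∈ SS k', K0 w σ' t * cell M (Φ w) (pr σ') t := by
      intro w
      have := pyth M (Φ w) (pr σ') (pr σ) (fun t : ℕ × ℕ => (ρ' t.1, ρ' t.2)) hs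
        (SS k) (SS k') (hSS σ k hσ) (hSS σ' k' h1) (K0 w σ) (hK0 w σ) (K0 w σ')
        (hK0 w σ')
      have h5 : 0 ≤ ∑ t ∈ SS k', (K0 w σ' t - K0 w σ ((fun t : ℕ × ℕ => (ρ' t.1, ρ' t.2)) t)) ^ 2 *
          cell M (fun _ => 1) (pr σ') t :=
        Finset.sum_nonneg fun t _ => mul_nonneg (sq_nonneg _) (hc0 σ' t)
      linarith
    have h5 : ∑ t ∈ SS k', K0 v σ' t * cell M (Φ v) (pr σ') t -
        ∑ t ∈ SS k, K0 v σ t * cell M (Φ v) (pr σ) t ≤ ε ^ 2 / 4 := by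
      have h6 := hmax σ' k' ρ' h1 h2
      have h7 : ∑ t ∈ SS k', K0 v σ' t * cell M (Φ v) (pr σ') t -
          ∑ t ∈ SS k, K0 v σ t * cell M (Φ v) (pr σ) t ≤ en σ' k' - en σ k := by
        simp only [en]
        rw [← Finset.sum_sub_distrib]
        exact Finset.single_le_sum (f := fun w => ∑ t ∈ SS k', K0 w σ' t * cell M (Φ w) (pr σ') t -
          ∑ t ∈ SS k, K0 w σ t * cell M (Φ w) (pr σ) t) (fun w _ => sub_nonneg.mpr (h4 w))
          (Finset.mem_range.mpr hv)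
      linarith
    have h6 : ∑ t ∈ SS k, K v t.1 t.2 * cell M (Φ v) (pr σ) t =
        ∑ t ∈ SS k, K0 v σ t * cell M (Φ v) (pr σ) t :=
      Finset.sum_congr rfl fun t _ => hKd v t
    rw [h6]
    have h7 : (∑ t ∈ SS k', K0 v σ' t * cell M (Φ v) (pr σ') t -
        ∑ t ∈ SS k, K0 v σ t * cell M (Φ v) (pr σ) t) / (2 * (ε / 2)) ≤ (ε ^ 2 / 4) / (2 * (ε / 2)) :=
      div_le_div_of_nonneg_right h5 (by positivity)
    have h8 : (ε ^ 2 / 4) / (2 * (ε / 2)) = ε / 4 := by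
      field_simp
    rw [h8] at h7
    linarith
  -- rounding
  intro G hfin hG0 hG1 v hv
  obtain ⟨n, hn⟩ := exists_nat_gt (2 / ε)
  have hn0 : (0 : ℝ) < n := lt_trans (by positivity) hn
  have : Finite (Set.range G) := hfin
  let _ : Fintype (Set.range G) := Fintype.ofFinite _
  let T := Fin k × (Set.range G × (Set.range G → Fin (n + 1)))
  let e : T ≃ Fin (Fintype.card T) := Fintype.equivFin T
  have hfl : ∀ (q : Set.range G) b, ⌊(n : ℝ) * q.1 b⌋₊ < n + 1 := by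
    rintro ⟨_, a, rfl⟩ b
    have : (n : ℝ) * G a b ≤ n := by
      nlinarith [hG1 a b, hG0 a b]
    have h2 : ⌊(n : ℝ) * G a b⌋₊ ≤ n := by
      have := Nat.floor_le_floor this
      simpa using this
    show ⌊(n : ℝ) * G a b⌋₊ < n + 1
    omega
  let s : Y' → T := fun a => (⟨σ a, hσ a⟩, (⟨G a, a, rfl⟩, fun q => ⟨⌊(n : ℝ) * q.1 a⌋₊, hfl q a⟩))
  let σ' : Y' → ℕ := fun a => (e (s a)).val
  let dec : ℕ → T → T := fun u t0 => if h : u < Fintype.card T then e.symm ⟨u, h⟩ else t0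
  have hdec : ∀ a t0, dec (σ' a) t0 = s a := by
    intro a t0
    simp only [dec, σ']
    rw [dif_pos (e (s a)).isLt]
    simp
  have hk : ∀ y, σ' y < Fintype.card T := fun y => (e (s y)).isLt
  by_cases hne : Nonempty Y'
  swap
  · have hY : IsEmpty Y := ⟨fun y => hne ⟨pre y⟩⟩
    have h1 : (fun y => ((if τ y = v then (1 : ℝ) else 0) - K v (σ (pre y)) (σ (suf y))) *
          G (pre y) (suf y)) = fun _ => 0 := by
      funext y
      exact (hY.false y).elim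
    rw [h1, M.const, abs_zero]
    exact hε.le
  obtain ⟨a0⟩ := hne
  let t0 : T := s a0
  let ρ' : ℕ → ℕ := fun u => ((dec u t0).1 : ℕ)
  have h1 : ∀ y, σ y = ρ' (σ' y) := by
    intro y
    simp only [ρ', hdec]
    rfl
  let Θ : ℕ × ℕ → ℝ := fun t => (((dec t.2 t0).2.2 (dec t.1 t0).2.1 : Fin (n + 1)) : ℕ) / (n : ℝ)
  have hΘ : ∀ t, |Θ t| ≤ 1 := by
    intro t
    simp only [Θ]
    rw [abs_of_nonneg (by positivity), div_le_one hn0]
    have := ((dec t.2 t0).2.2 (dec t.1 t0).2.1).isLt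
    exact_mod_cast Nat.lt_succ_iff.mp this
  have h2 := main σ' _ ρ' hk h1 Θ hΘ v hv
  have h3 : ∀ y, Θ (pr σ' y) = (⌊(n : ℝ) * G (pre y) (suf y)⌋₊ : ℝ) / n := by
    intro y
    simp only [Θ, pr, hdec]
    rfl
  have h4 : ∀ y, |G (pre y) (suf y) - Θ (pr σ' y)| ≤ ε / 2 := by
    intro y
    rw [h3 y]
    have e1 := Nat.floor_le (mul_nonneg hn0.le (hG0 (pre y) (suf y)))
    have e2 := Nat.lt_floor_add_one ((n : ℝ) * G (pre y) (suf y))
    have e3 : 1 / (n : ℝ) ≤ ε / 2 := by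
      rw [div_le_iff₀ hn0]
      rw [div_lt_iff₀ hε] at hn
      nlinarith
    rw [abs_le]
    constructor
    · have : (⌊(n : ℝ) * G (pre y) (suf y)⌋₊ : ℝ) / n ≤ G (pre y) (suf y) := by
        rw [div_le_iff₀ hn0]
        linarith
      linarith
    · have : G (pre y) (suf y) < ((⌊(n : ℝ) * G (pre y) (suf y)⌋₊ : ℝ) + 1) / n := by
        rw [lt_div_iff₀ hn0]
        linarith
      rw [add_div] at this
      linarith
  have h5 : (fun y => ((if τ y = v then (1 : ℝ) else 0) - K v (σ (pre y)) (σ (suf y))) *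
      G (pre y) (suf y)) = fun y => (Φ v y - K v (σ (pre y)) (σ (suf y))) * Θ (pr σ' y) +
        (Φ v y - K v (σ (pre y)) (σ (suf y))) * (G (pre y) (suf y) - Θ (pr σ' y)) := by
    funext y
    simp only [Φ]
    ring
  rw [h5, M.add_f]
  have h6 : |M.f (fun y => (Φ v y - K v (σ (pre y)) (σ (suf y))) *
      (G (pre y) (suf y) - Θ (pr σ' y)))| ≤ ε / 2 := by
    refine M.abs_le fun y => ?_
    rw [abs_mul]
    have e1 : |Φ v y - K v (σ (pre y)) (σ (suf y))| ≤ 1 := by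
      rw [abs_le]
      constructor
      · linarith [hΦ0 v y, hKle v (σ (pre y)) (σ (suf y))]
      · linarith [hΦ1 v y, hKnn v (σ (pre y)) (σ (suf y))]
    calc _ ≤ 1 * (ε / 2) := mul_le_mul e1 (h4 y) (abs_nonneg _) zero_le_one
      _ = ε / 2 := one_mul _
  calc _ ≤ _ := abs_add_le _ _
    _ ≤ ε / 2 + ε / 2 := add_le_add h2 h6
    _ = ε := by ring

end Pool.Agent.X330.PS
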