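import Pool.Agent.X330.PS.Diag

set_option autoImplicit false
set_option linter.unusedVariables false

namespace Pool.Agent.X330.PS

open Classical

section tele

variable {m : Mean ℕ} {R : ℕ} {δ : ℝ} (F : Fam m R δ)

theorem PL_close (hδ : 0 ≤ δ) (l : ℕ) (hl : l + 1 ≤ R) {g : Dg R → ℝ} (hg : Un g)
    (hdep : Dep (l + 1) Set.univ g) (L : List (Fin (R + 1))) :
    |It m 0 (R + 1) (fun x => g (D F x)) (fun _ => 0) -
      It m 0 (R + 1) (fun x => PL F l L g (D F x)) (fun _ => 0)| ≤ L.length * δ := by
  induction L with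
  | nil => simp [PL_nil]
  | cons k L ih =>
    have h1 : |It m 0 (R + 1) (fun x => PL F l L g (D F x)) (fun _ => 0) -
      It m 0 (R + 1) (fun x => PL F l (k :: L) g (D F x)) (fun _ => 0)| ≤ δ := by
      rw [PL_cons]
      have hd := PL_dep' F l L (by omega) hdep
      by_cases hk : R + 1 < k.val + (l + 1)
      · rw [P_nonlin F l k hk _ hd, sub_self, abs_zero]
        exact hδ
      · exact step F l k hl (by omega) (PL_un F l L hg) (hd.anti (Set.subset_univ _))
    calc _ ≤ _ := abs_sub_le _ (It m 0 (R + 1) (fun x => PL F l L g (D F x)) (fun _ => 0)) _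
      _ ≤ L.length * δ + δ := add_le_add ih h1
      _ = ((k :: L).length : ℝ) * δ := by
        rw [List.length_cons]
        push_cast
        ring

theorem PP_close (hδ : 0 ≤ δ) (l : ℕ) (hl : l ≤ R) {g : Dg R → ℝ} (hg : Un g)
    (hdep : Dep l Set.univ g) :
    |It m 0 (R + 1) (fun x => g (D F x)) (fun _ => 0) - PP F l g (D F (fun _ => 0))| ≤
      l * ((R + 1) * δ) := by
  induction l generalizing g with
  | zero =>
    rw [PP_zero]
    have h1 : (fun x => g (D F x)) = fun _ => g (D F (fun _ => 0)) := by
      funext x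
      refine hdep _ _ (fun l' hl' => absurd hl' (by omega)) (fun j _ _ => ?_)
      unfold D
      congr 1
      funext i
      exact i.elim0
    rw [h1]
    unfold It
    rw [(MF m (R + 1)).const]
    simp
  | succ l ih =>
    rw [PP_succ]
    have h1 := PL_close F hδ l hl hg hdep (List.finRange (R + 1))
    have h2 := ih (by omega) (PL_un F l (List.finRange (R + 1)) hg) (PL_dep F l (by omega) hdep)
    rw [List.length_finRange] at h1
    calc _ ≤ _ := abs_sub_le _ (It m 0 (R + 1)
          (fun x => PL F l (List.finRange (R + 1)) g (D F x)) (fun _ => 0)) _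
      _ ≤ ((R + 1 : ℕ) : ℝ) * δ + l * ((R + 1) * δ) := add_le_add h1 h2
      _ = _ := by
        push_cast
        ring

theorem PP_dep (l : ℕ) (hl : l ≤ R) {g : Dg R → ℝ} (hdep : Dep l Set.univ g) :
    Dep 0 Set.univ (PP F l g) := by
  induction l generalizing g with
  | zero => exact hdep
  | succ l ih => exact ih (by omega) (PL_dep F l (by omega) hdep)

theorem PP_rot_iter (l : ℕ) (g : Dg R → ℝ) (n : ℕ) :
    PP F l (fun t => g (rot^[n] t)) = fun t => PP F l g (rot^[n] t) := by
  induction n generalizing g with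
  | zero => rfl
  | succ n ih =>
    have h1 : (fun t : Dg R => g (rot^[n + 1] t)) = fun t => (fun t => g (rot^[n] t)) (rot t) := by
      funext t
      rw [Function.iterate_succ_apply]
    rw [h1, PP_rot F l (fun t => g (rot^[n] t)), ih]
    funext t
    rw [Function.iterate_succ_apply]

/-- cyclic shift of a position -/
def addn {R : ℕ} (j : Fin (R + 1)) (n : ℕ) : Fin (R + 1) :=
  ⟨(j.val + n) % (R + 1), Nat.mod_lt _ (Nat.succ_pos R)⟩

theorem rot_iter (n : ℕ) (t : Dg R) (l : ℕ) (j : Fin (R + 1)) :
    (rot^[n] t) l j = t l (addn j n) := by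
  induction n generalizing t with
  | zero =>
    show t l j = _
    congr 1
    apply Fin.ext
    show j.val = (j.val + 0) % (R + 1)
    rw [add_zero, Nat.mod_eq_of_lt j.isLt]
  | succ n ih =>
    rw [Function.iterate_succ_apply, ih]
    show t l (addn j n + 1) = _
    congr 1
    apply Fin.ext
    rw [Fin.val_add]
    show ((j.val + n) % (R + 1) + (1 : Fin (R + 1)).val) % (R + 1) = (j.val + (n + 1)) % (R + 1)
    rw [Fin.val_one', ← Nat.add_mod, add_assoc]

/-- **Rotated events which are pairwise incompatible.** -/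
theorem rotated (hδ : 0 ≤ δ) {g : Dg R → ℝ} (hg : Un g) (hdep : Dep R Set.univ g)
    (hsum : ∀ t, ∑ j ∈ Finset.range (R + 1), g (rot^[j] t) ≤ 1) :
    (R + 1) * PP F R g (D F (fun _ => 0)) ≤ 1 := by
  have h0 := PP_dep F R le_rfl hdep
  have h1 : ∀ n, PP F R g (rot^[n] (D F (fun _ => 0))) = PP F R g (D F (fun _ => 0)) := by
    intro n
    refine h0 _ _ (fun l' hl' => absurd hl' (by omega)) (fun j _ _ => ?_)
    rw [rot_iter n _ 0 j]
    show F.τ 0 _ = F.τ 0 _
    congr 1
  have h2 : Un (fun t : Dg R => ∑ j ∈ Finset.range (R + 1), g (rot^[j] t)) := fun t =>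
    ⟨Finset.sum_nonneg fun j _ => (hg _).1, hsum t⟩
  have h3 := (PP_un F R h2 (D F (fun _ => 0))).2
  rw [PP_sum] at h3
  simp only [PP_rot_iter, h1] at h3
  rw [Finset.sum_const, Finset.card_range, nsmul_eq_mul] at h3
  push_cast at h3
  exact h3

end tele

/-- **Existence of the tower.** -/
theorem exists_fam' (m : Mean ℕ) {δ : ℝ} (hδ : 0 < δ) (κ : ∀ l, (Fin l → ℕ) → ℕ) (C : ℕ → ℕ)
    (hκ : ∀ l y, κ l y < C l) (n : ℕ) :
    ∀ (top : (Fin n → ℕ) → ℕ) (Nt : ℕ), (∀ y, top y < Nt) →
      ∃ F : Fam m n δ, F.τ n = top ∧ ∀ l < n, ∃ ρ : ℕ → ℕ, ∀ y, κ l y = ρ (F.τ l y) := by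
  induction n with
  | zero =>
    intro top Nt ht
    refine ⟨⟨Function.update (fun l _ => 0) 0 top, Function.update (fun _ => 1) 0 Nt,
      fun _ v _ _ => if v = 0 then 1 else 0, ?_, ?_, ?_, ?_⟩, ?_, ?_⟩
    · intro l y
      by_cases h : l = 0
      · subst h
        rw [Function.update_self, Function.update_self]
        exact ht y
      · rw [Function.update_of_ne h, Function.update_of_ne h]
        exact Nat.zero_lt_one
    · intro l v u u'
      show (0 : ℝ) ≤ if v = 0 then 1 else 0
      split_ifs <;> norm_num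
    · intro l u u'
      rw [Function.update_of_ne (Nat.succ_ne_zero l)]
      simp
    · intro l hl
      exact absurd hl (by omega)
    · show Function.update (fun l _ => 0) 0 top 0 = top
      rw [Function.update_self]
    · intro l hl
      exact absurd hl (by omega)
  | succ n ih =>
    intro top Nt ht
    have hNt : 0 < Nt := lt_of_le_of_lt (Nat.zero_le _) (ht (fun _ => 0))
    have hNt' : (0 : ℝ) < Nt := by exact_mod_cast hNt
    obtain ⟨k, σ, ρ, K, hσ, hρ, hK0, hK1, hreg⟩ := regularity (MF m (n + 1))
      (fun y : Fin (n + 1) → ℕ => (Fin.init y : Fin n → ℕ)) (fun y => Fin.tail y) top Nt ht hNt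
      (κ n) (C n) (hκ n) (div_pos hδ hNt')
    obtain ⟨F', hF1, hF2⟩ := ih σ k hσ
    refine ⟨⟨Function.update F'.τ (n + 1) top, Function.update F'.N (n + 1) Nt,
      Function.update F'.K n K, ?_, ?_, ?_, ?_⟩, ?_, ?_⟩
    · intro l y
      by_cases h : l = n + 1
      · subst h
        rw [Function.update_self, Function.update_self]
        exact ht y
      · rw [Function.update_of_ne h, Function.update_of_ne h]
        exact F'.lt l y
    · intro l v u u'
      by_cases h : l = n
      · subst h
        rw [Function.update_self]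
        exact hK0 v u u'
      · rw [Function.update_of_ne h]
        exact F'.Knn l v u u'
    · intro l u u'
      by_cases h : l = n
      · subst h
        rw [Function.update_self, Function.update_self]
        exact hK1 u u'
      · rw [Function.update_of_ne h, Function.update_of_ne (by omega)]
        exact F'.Ksum l u u'
    · intro l hl G h1 h2 h3 v hv
      by_cases h : l = n
      · subst h
        rw [Function.update_self] at hv
        rw [Function.update_self, Function.update_self, Function.update_self,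
          Function.update_of_ne (by omega), hF1]
        exact hreg G h1 h2 h3 v hv
      · have hl' : l + 1 ≠ n + 1 := by omega
        have hl'' : l ≠ n + 1 := by omega
        rw [Function.update_of_ne hl'] at hv
        rw [Function.update_of_ne hl', Function.update_of_ne hl', Function.update_of_ne h,
          Function.update_of_ne hl'']
        exact F'.reg l (by omega) G h1 h2 h3 v hv
    · show Function.update F'.τ (n + 1) top (n + 1) = top
      rw [Function.update_self]
    · intro l hl
      show ∃ ρ : ℕ → ℕ, ∀ y, κ l y = ρ (Function.update F'.τ (n + 1) top l y)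
      rw [Function.update_of_ne (by omega)]
      by_cases h : l = n
      · subst h
        rw [hF1]
        exact ⟨ρ, hρ⟩
      · exact hF2 l (by omega)

theorem exists_fam (m : Mean ℕ) {δ : ℝ} (hδ : 0 < δ) (κ : ∀ l, (Fin l → ℕ) → ℕ) (C : ℕ → ℕ)
    (hκ : ∀ l y, κ l y < C l) (R : ℕ) :
    ∃ F : Fam m R δ, ∀ l ≤ R, ∃ ρ : ℕ → ℕ, ∀ y, κ l y = ρ (F.τ l y) := by
  obtain ⟨F, h1, h2⟩ := exists_fam' m hδ κ C hκ R (κ R) (C R) (hκ R)
  refine ⟨F, fun l hl => ?_⟩
  rcases hl.lt_or_eq with h | h
  · exact h2 l h
  · subst h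
    rw [h1]
    exact ⟨id, fun y => rfl⟩

end Pool.Agent.X330.PS
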