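import Pool.Agent.X330.PS.Basic

set_option autoImplicit false
set_option linter.unusedVariables false

namespace Pool.Agent.X330.PS

open Classical

/-- real indicator -/
noncomputable def ind (P : Set ℕ) (n : ℕ) : ℝ := if n ∈ P then 1 else 0

theorem ind_nonneg (P : Set ℕ) (n : ℕ) : 0 ≤ ind P n := by
  unfold ind; split_ifs <;> norm_num

theorem ind_le_one (P : Set ℕ) (n : ℕ) : ind P n ≤ 1 := by
  unfold ind; split_ifs <;> norm_num

theorem ind_mono {P Q : Set ℕ} (h : P ⊆ Q) (n : ℕ) : ind P n ≤ ind Q n := by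
  unfold ind
  split_ifs with h1 h2
  · exact le_rfl
  · exact absurd (h h1) h2
  · norm_num
  · exact le_rfl

theorem ind_empty (n : ℕ) : ind ∅ n = 0 := by simp [ind]

theorem ind_split {T : Type} [Fintype T] (χ : ℕ → T) (P : Set ℕ) (n : ℕ) :
    ind P n = ∑ p : T, ind (P ∩ χ ⁻¹' {p}) n := by
  rw [Finset.sum_eq_single (χ n)]
  · simp [ind]
  · intro b _ hb
    unfold ind
    rw [if_neg]
    rintro ⟨-, h⟩
    exact hb h.symm
  · intro h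
    exact absurd (Finset.mem_univ _) h

/-- the mass of `F` on a rectangle, first variable outermost -/
noncomputable def l1 (μ ν : Mean ℕ) (F : ℕ → ℕ → ℝ) (P Q : Set ℕ) : ℝ :=
  μ.f (fun a => ν.f (fun b => ind P a * ind Q b * F a b))

/-- the mass of `F` on a rectangle, second variable outermost -/
noncomputable def l2 (μ ν : Mean ℕ) (F : ℕ → ℕ → ℝ) (P Q : Set ℕ) : ℝ :=
  ν.f (fun b => μ.f (fun a => ind P a * ind Q b * F a b))

theorem l2_eq (μ ν : Mean ℕ) (F : ℕ → ℕ → ℝ) (P Q : Set ℕ) :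
    l2 μ ν F P Q = l1 ν μ (fun b a => F a b) Q P := by
  unfold l2 l1
  congr 1
  funext b
  congr 1
  funext a
  ring

theorem l1_eq (μ ν : Mean ℕ) (F : ℕ → ℕ → ℝ) (P Q : Set ℕ) :
    l1 μ ν F P Q = l2 ν μ (fun b a => F a b) Q P := by
  unfold l2 l1
  congr 1
  funext b
  congr 1
  funext a
  ring

section

variable (μ ν : Mean ℕ) (F : ℕ → ℕ → ℝ) (h0 : ∀ a b, 0 ≤ F a b) (h1 : ∀ a b, F a b ≤ 1)

include h0 h1

theorem term_nonneg (P Q : Set ℕ) (a b : ℕ) : 0 ≤ ind P a * ind Q b * F a b :=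
  mul_nonneg (mul_nonneg (ind_nonneg _ _) (ind_nonneg _ _)) (h0 a b)

theorem term_le_one (P Q : Set ℕ) (a b : ℕ) : ind P a * ind Q b * F a b ≤ 1 := by
  have e1 := ind_nonneg P a
  have e2 := ind_nonneg Q b
  have e3 := ind_le_one P a
  have e4 := ind_le_one Q b
  have e5 : ind P a * ind Q b ≤ 1 := by nlinarith
  have e6 := h0 a b
  have e7 := h1 a b
  have e8 : 0 ≤ ind P a * ind Q b := mul_nonneg e1 e2
  nlinarith

theorem l1_nonneg (P Q : Set ℕ) : 0 ≤ l1 μ ν F P Q := by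
  unfold l1
  refine μ.pos (Mean.bd_inner ν _ ⟨1, fun a b => ?_⟩) fun a => ν.pos (Bd.of_unit ?_ ?_) ?_
  · rw [abs_of_nonneg (term_nonneg F h0 h1 P Q a b)]
    exact term_le_one F h0 h1 P Q a b
  · exact term_nonneg F h0 h1 P Q a
  · exact term_le_one F h0 h1 P Q a
  · exact term_nonneg F h0 h1 P Q a

theorem l1_mono {P P' Q Q' : Set ℕ} (hP : P ⊆ P') (hQ : Q ⊆ Q') :
    l1 μ ν F P Q ≤ l1 μ ν F P' Q' := by
  unfold l1
  have hb : ∀ P Q : Set ℕ, ∃ C, ∀ a b, |ind P a * ind Q b * F a b| ≤ C := fun P Q =>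
    ⟨1, fun a b => by
      rw [abs_of_nonneg (term_nonneg F h0 h1 P Q a b)]
      exact term_le_one F h0 h1 P Q a b⟩
  refine μ.mono (Mean.bd_inner ν _ (hb P Q)) (Mean.bd_inner ν _ (hb P' Q')) fun a => ?_
  refine ν.mono (Bd.of_unit (term_nonneg F h0 h1 P Q a) (term_le_one F h0 h1 P Q a))
    (Bd.of_unit (term_nonneg F h0 h1 P' Q' a) (term_le_one F h0 h1 P' Q' a)) fun b => ?_
  refine mul_le_mul_of_nonneg_right ?_ (h0 a b)
  exact mul_le_mul (ind_mono hP a) (ind_mono hQ b) (ind_nonneg _ _) (ind_nonneg _ _)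

omit h0 h1 in
theorem l1_split {T : Type} [Fintype T] (χ : ℕ → T) (P Q : Set ℕ) :
    l1 μ ν F P Q = ∑ p : T, ∑ q : T, l1 μ ν F (P ∩ χ ⁻¹' {p}) (Q ∩ χ ⁻¹' {q}) := by
  unfold l1
  rw [← Finset.sum_congr rfl (fun p _ => μ.sum_f Finset.univ _), ← μ.sum_f Finset.univ]
  congr 1
  funext a
  rw [← Finset.sum_congr rfl (fun p _ => ν.sum_f Finset.univ _), ← ν.sum_f Finset.univ]
  congr 1
  funext b
  rw [ind_split χ P a, ind_split χ Q b, Finset.sum_mul_sum, Finset.sum_mul]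
  refine Finset.sum_congr rfl fun p _ => ?_
  rw [Finset.sum_mul]

theorem l2_nonneg (P Q : Set ℕ) : 0 ≤ l2 μ ν F P Q := by
  rw [l2_eq]
  exact l1_nonneg ν μ _ (fun b a => h0 a b) (fun b a => h1 a b) _ _

theorem l2_mono {P P' Q Q' : Set ℕ} (hP : P ⊆ P') (hQ : Q ⊆ Q') :
    l2 μ ν F P Q ≤ l2 μ ν F P' Q' := by
  rw [l2_eq, l2_eq]
  exact l1_mono ν μ _ (fun b a => h0 a b) (fun b a => h1 a b) hQ hP

omit h0 h1 in
theorem l2_split {T : Type} [Fintype T] (χ : ℕ → T) (P Q : Set ℕ) :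
    l2 μ ν F P Q = ∑ p : T, ∑ q : T, l2 μ ν F (P ∩ χ ⁻¹' {p}) (Q ∩ χ ⁻¹' {q}) := by
  rw [l2_eq, l1_split ν μ _ χ, Finset.sum_comm]
  refine Finset.sum_congr rfl fun p _ => Finset.sum_congr rfl fun q _ => ?_
  rw [l2_eq]

omit h0 h1 in
theorem l1_empty_left (Q : Set ℕ) : l1 μ ν F ∅ Q = 0 := by
  unfold l1
  simp only [ind_empty, zero_mul]
  rw [show (fun _ : ℕ => ν.f fun _ : ℕ => (0 : ℝ)) = fun _ => (0 : ℝ) by
    funext a; exact ν.const 0]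
  exact μ.const 0

omit h0 h1 in
theorem l1_empty_right (P : Set ℕ) : l1 μ ν F P ∅ = 0 := by
  unfold l1
  simp only [ind_empty, zero_mul, mul_zero]
  rw [show (fun _ : ℕ => ν.f fun _ : ℕ => (0 : ℝ)) = fun _ => (0 : ℝ) by
    funext a; exact ν.const 0]
  exact μ.const 0

/-- the common part of the two masses, as seen by a finite colouring -/
noncomputable def val {T : Type} [Fintype T] (μ ν : Mean ℕ) (F : ℕ → ℕ → ℝ) (χ : ℕ → T)
    (P Q : Set ℕ) : ℝ :=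
  ∑ p : T, ∑ q : T, min (l1 μ ν F (P ∩ χ ⁻¹' {p}) (Q ∩ χ ⁻¹' {q}))
    (l2 μ ν F (P ∩ χ ⁻¹' {p}) (Q ∩ χ ⁻¹' {q}))

theorem min_nonneg' (P Q : Set ℕ) : 0 ≤ min (l1 μ ν F P Q) (l2 μ ν F P Q) :=
  le_min (l1_nonneg μ ν F h0 h1 P Q) (l2_nonneg μ ν F h0 h1 P Q)

theorem val_nonneg {T : Type} [Fintype T] (χ : ℕ → T) (P Q : Set ℕ) : 0 ≤ val μ ν F χ P Q :=
  Finset.sum_nonneg fun p _ => Finset.sum_nonneg fun q _ => min_nonneg' μ ν F h0 h1 _ _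

omit h0 h1 in
theorem val_swap {T : Type} [Fintype T] (χ : ℕ → T) (P Q : Set ℕ) :
    val μ ν F χ P Q = val ν μ (fun b a => F a b) χ Q P := by
  unfold val
  rw [Finset.sum_comm]
  refine Finset.sum_congr rfl fun p _ => Finset.sum_congr rfl fun q _ => ?_
  have e1 := l1_eq μ ν F (P ∩ χ ⁻¹' {q}) (Q ∩ χ ⁻¹' {p})
  have e2 := l2_eq μ ν F (P ∩ χ ⁻¹' {q}) (Q ∩ χ ⁻¹' {p})
  rw [e1, e2]
  exact min_comm _ _

theorem val_mono {T : Type} [Fintype T] (χ : ℕ → T) {P P' Q Q' : Set ℕ} (hP : P ⊆ P')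
    (hQ : Q ⊆ Q') : val μ ν F χ P Q ≤ val μ ν F χ P' Q' := by
  refine Finset.sum_le_sum fun p _ => Finset.sum_le_sum fun q _ => min_le_min ?_ ?_
  · exact l1_mono μ ν F h0 h1 (Set.inter_subset_inter_left _ hP) (Set.inter_subset_inter_left _ hQ)
  · exact l2_mono μ ν F h0 h1 (Set.inter_subset_inter_left _ hP) (Set.inter_subset_inter_left _ hQ)

omit h0 h1 in
theorem sum_min_le {ι : Type} (s : Finset ι) (f g : ι → ℝ) :
    ∑ i ∈ s, min (f i) (g i) ≤ min (∑ i ∈ s, f i) (∑ i ∈ s, g i) :=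
  le_min (Finset.sum_le_sum fun i _ => min_le_left _ _) (Finset.sum_le_sum fun i _ => min_le_right _ _)

/-- refining a colouring makes the common part smaller -/
theorem val_refine {T T' : Type} [Fintype T] [Fintype T'] (χ : ℕ → T) (ρ : T → T') (P Q : Set ℕ) :
    val μ ν F χ P Q ≤ val μ ν F (ρ ∘ χ) P Q := by
  have key : ∀ p' q' : T',
      ∑ p : T, ∑ q : T, min (l1 μ ν F ((P ∩ (ρ ∘ χ) ⁻¹' {p'}) ∩ χ ⁻¹' {p}) ((Q ∩ (ρ ∘ χ) ⁻¹' {q'}) ∩ χ ⁻¹' {q}))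
        (l2 μ ν F ((P ∩ (ρ ∘ χ) ⁻¹' {p'}) ∩ χ ⁻¹' {p}) ((Q ∩ (ρ ∘ χ) ⁻¹' {q'}) ∩ χ ⁻¹' {q})) ≤
      min (l1 μ ν F (P ∩ (ρ ∘ χ) ⁻¹' {p'}) (Q ∩ (ρ ∘ χ) ⁻¹' {q'}))
        (l2 μ ν F (P ∩ (ρ ∘ χ) ⁻¹' {p'}) (Q ∩ (ρ ∘ χ) ⁻¹' {q'})) := by
    intro p' q'
    rw [l1_split μ ν F χ (P ∩ (ρ ∘ χ) ⁻¹' {p'}), l2_split μ ν F χ (P ∩ (ρ ∘ χ) ⁻¹' {p'})]
    refine le_trans (Finset.sum_le_sum fun p _ => sum_min_le _ _ _) ?_
    exact sum_min_le _ _ _
  unfold val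
  calc ∑ p : T, ∑ q : T, min (l1 μ ν F (P ∩ χ ⁻¹' {p}) (Q ∩ χ ⁻¹' {q}))
        (l2 μ ν F (P ∩ χ ⁻¹' {p}) (Q ∩ χ ⁻¹' {q}))
      ≤ ∑ p : T, ∑ q : T, ∑ p' : T', ∑ q' : T',
        min (l1 μ ν F ((P ∩ (ρ ∘ χ) ⁻¹' {p'}) ∩ χ ⁻¹' {p}) ((Q ∩ (ρ ∘ χ) ⁻¹' {q'}) ∩ χ ⁻¹' {q}))
        (l2 μ ν F ((P ∩ (ρ ∘ χ) ⁻¹' {p'}) ∩ χ ⁻¹' {p}) ((Q ∩ (ρ ∘ χ) ⁻¹' {q'}) ∩ χ ⁻¹' {q})) := by
        refine Finset.sum_le_sum fun p _ => Finset.sum_le_sum fun q _ => ?_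
        have e1 : (P ∩ (ρ ∘ χ) ⁻¹' {ρ p}) ∩ χ ⁻¹' {p} = P ∩ χ ⁻¹' {p} := by
          ext n
          simp only [Set.mem_inter_iff, Set.mem_preimage, Function.comp, Set.mem_singleton_iff]
          constructor
          · rintro ⟨⟨h1, -⟩, h2⟩
            exact ⟨h1, h2⟩
          · rintro ⟨h1, h2⟩
            exact ⟨⟨h1, by rw [h2]⟩, h2⟩
        have e2 : (Q ∩ (ρ ∘ χ) ⁻¹' {ρ q}) ∩ χ ⁻¹' {q} = Q ∩ χ ⁻¹' {q} := by
          ext n
          simp only [Set.mem_inter_iff, Set.mem_preimage, Function.comp, Set.mem_singleton_iff]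
          constructor
          · rintro ⟨⟨h1, -⟩, h2⟩
            exact ⟨h1, h2⟩
          · rintro ⟨h1, h2⟩
            exact ⟨⟨h1, by rw [h2]⟩, h2⟩
        have e3 := Finset.single_le_sum (f := fun q' : T' =>
          min (l1 μ ν F ((P ∩ (ρ ∘ χ) ⁻¹' {ρ p}) ∩ χ ⁻¹' {p}) ((Q ∩ (ρ ∘ χ) ⁻¹' {q'}) ∩ χ ⁻¹' {q}))
          (l2 μ ν F ((P ∩ (ρ ∘ χ) ⁻¹' {ρ p}) ∩ χ ⁻¹' {p}) ((Q ∩ (ρ ∘ χ) ⁻¹' {q'}) ∩ χ ⁻¹' {q})))
          (fun i _ => min_nonneg' μ ν F h0 h1 _ _) (Finset.mem_univ (ρ q))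
        have e4 := Finset.single_le_sum (f := fun p' : T' => ∑ q' : T',
          min (l1 μ ν F ((P ∩ (ρ ∘ χ) ⁻¹' {p'}) ∩ χ ⁻¹' {p}) ((Q ∩ (ρ ∘ χ) ⁻¹' {q'}) ∩ χ ⁻¹' {q}))
          (l2 μ ν F ((P ∩ (ρ ∘ χ) ⁻¹' {p'}) ∩ χ ⁻¹' {p}) ((Q ∩ (ρ ∘ χ) ⁻¹' {q'}) ∩ χ ⁻¹' {q})))
          (fun i _ => Finset.sum_nonneg fun j _ => min_nonneg' μ ν F h0 h1 _ _) (Finset.mem_univ (ρ p))
        have e5 : min (l1 μ ν F (P ∩ χ ⁻¹' {p}) (Q ∩ χ ⁻¹' {q}))
            (l2 μ ν F (P ∩ χ ⁻¹' {p}) (Q ∩ χ ⁻¹' {q})) =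
            min (l1 μ ν F ((P ∩ (ρ ∘ χ) ⁻¹' {ρ p}) ∩ χ ⁻¹' {p}) ((Q ∩ (ρ ∘ χ) ⁻¹' {ρ q}) ∩ χ ⁻¹' {q}))
            (l2 μ ν F ((P ∩ (ρ ∘ χ) ⁻¹' {ρ p}) ∩ χ ⁻¹' {p}) ((Q ∩ (ρ ∘ χ) ⁻¹' {ρ q}) ∩ χ ⁻¹' {q})) := by
          rw [e1, e2]
        rw [e5]
        exact e3.trans e4
    _ = ∑ p' : T', ∑ q' : T', ∑ p : T, ∑ q : T,
        min (l1 μ ν F ((P ∩ (ρ ∘ χ) ⁻¹' {p'}) ∩ χ ⁻¹' {p}) ((Q ∩ (ρ ∘ χ) ⁻¹' {q'}) ∩ χ ⁻¹' {q}))
        (l2 μ ν F ((P ∩ (ρ ∘ χ) ⁻¹' {p'}) ∩ χ ⁻¹' {p}) ((Q ∩ (ρ ∘ χ) ⁻¹' {q'}) ∩ χ ⁻¹' {q})) := by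
        rw [Finset.sum_congr rfl (fun p _ => Finset.sum_comm), Finset.sum_comm]
        refine Finset.sum_congr rfl fun p' _ => ?_
        rw [Finset.sum_congr rfl (fun p _ => Finset.sum_comm), Finset.sum_comm]
    _ ≤ _ := Finset.sum_le_sum fun p' _ => Finset.sum_le_sum fun q' _ => key p' q'

/-- the set of values of finite colourings -/
def vals (μ ν : Mean ℕ) (F : ℕ → ℕ → ℝ) (P Q : Set ℕ) : Set ℝ :=
  {v | ∃ (k : ℕ) (χ : ℕ → Fin k), v = val μ ν F χ P Q}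

/-- the common part of the two masses -/
noncomputable def kap (μ ν : Mean ℕ) (F : ℕ → ℕ → ℝ) (P Q : Set ℕ) : ℝ := sInf (vals μ ν F P Q)

theorem vals_bdd (P Q : Set ℕ) : BddBelow (vals μ ν F P Q) := by
  refine ⟨0, ?_⟩
  rintro v ⟨k, χ, rfl⟩
  exact val_nonneg μ ν F h0 h1 χ P Q

omit h0 h1 in
theorem vals_nonempty (P Q : Set ℕ) : (vals μ ν F P Q).Nonempty :=
  ⟨_, 1, fun _ => 0, rfl⟩

theorem kap_nonneg (P Q : Set ℕ) : 0 ≤ kap μ ν F P Q := by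
  refine le_csInf (vals_nonempty μ ν F P Q) ?_
  rintro v ⟨k, χ, rfl⟩
  exact val_nonneg μ ν F h0 h1 χ P Q

theorem kap_le {T : Type} [Fintype T] (χ : ℕ → T) (P Q : Set ℕ) :
    kap μ ν F P Q ≤ val μ ν F χ P Q := by
  let e := Fintype.equivFin T
  have h2 : val μ ν F (e ∘ χ) P Q ≤ val μ ν F (e.symm ∘ (e ∘ χ)) P Q :=
    val_refine μ ν F h0 h1 _ _ P Q
  have h3 : e.symm ∘ (e ∘ χ) = χ := by
    funext n
    simp
  rw [h3] at h2
  exact (csInf_le (vals_bdd μ ν F h0 h1 P Q) ⟨_, e ∘ χ, rfl⟩).trans h2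

omit h0 h1 in
theorem kap_swap (P Q : Set ℕ) : kap μ ν F P Q = kap ν μ (fun b a => F a b) Q P := by
  unfold kap vals
  congr 1
  ext v
  constructor
  · rintro ⟨k, χ, rfl⟩
    exact ⟨k, χ, val_swap μ ν F χ P Q⟩
  · rintro ⟨k, χ, rfl⟩
    exact ⟨k, χ, (val_swap μ ν F χ P Q).symm⟩

theorem kap_mono {P P' Q Q' : Set ℕ} (hP : P ⊆ P') (hQ : Q ⊆ Q') :
    kap μ ν F P Q ≤ kap μ ν F P' Q' := by
  refine le_csInf (vals_nonempty μ ν F P' Q') ?_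
  rintro v ⟨k, χ, rfl⟩
  exact (kap_le μ ν F h0 h1 χ P Q).trans (val_mono μ ν F h0 h1 χ hP hQ)

theorem kap_le_l1 (P Q : Set ℕ) : kap μ ν F P Q ≤ l1 μ ν F P Q := by
  refine (kap_le μ ν F h0 h1 (fun _ : ℕ => ()) P Q).trans ?_
  unfold val
  simp only [Finset.univ_unique, Finset.sum_singleton]
  refine (min_le_left _ _).trans ?_
  exact l1_mono μ ν F h0 h1 Set.inter_subset_left Set.inter_subset_left

theorem kap_sub (P Q1 Q2 : Set ℕ) (hd : Disjoint Q1 Q2) :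
    kap μ ν F P (Q1 ∪ Q2) ≤ kap μ ν F P Q1 + kap μ ν F P Q2 := by
  refine le_of_forall_pos_le_add fun δ hδ => ?_
  obtain ⟨v1, ⟨k1, χ1, rfl⟩, hv1⟩ := exists_lt_of_csInf_lt (vals_nonempty μ ν F P Q1)
    (show sInf (vals μ ν F P Q1) < kap μ ν F P Q1 + δ / 2 by unfold kap; linarith)
  obtain ⟨v2, ⟨k2, χ2, rfl⟩, hv2⟩ := exists_lt_of_csInf_lt (vals_nonempty μ ν F P Q2)
    (show sInf (vals μ ν F P Q2) < kap μ ν F P Q2 + δ / 2 by unfold kap; linarith)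
  let χ : ℕ → (Fin k1 × Fin k2) × Bool := fun n => ((χ1 n, χ2 n), decide (n ∈ Q1))
  have e1 : val μ ν F χ P Q1 ≤ val μ ν F χ1 P Q1 :=
    val_refine μ ν F h0 h1 χ (fun t => t.1.1) P Q1
  have e2 : val μ ν F χ P Q2 ≤ val μ ν F χ2 P Q2 :=
    val_refine μ ν F h0 h1 χ (fun t => t.1.2) P Q2
  have e3 : val μ ν F χ P (Q1 ∪ Q2) ≤ val μ ν F χ P Q1 + val μ ν F χ P Q2 := by
    unfold val
    rw [← Finset.sum_add_distrib]
    refine Finset.sum_le_sum fun p _ => ?_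
    rw [← Finset.sum_add_distrib]
    refine Finset.sum_le_sum fun q _ => ?_
    have n1 := min_nonneg' μ ν F h0 h1 (P ∩ χ ⁻¹' {p}) (Q1 ∩ χ ⁻¹' {q})
    have n2 := min_nonneg' μ ν F h0 h1 (P ∩ χ ⁻¹' {p}) (Q2 ∩ χ ⁻¹' {q})
    rcases hq : q.2 with _ | _
    · have : (Q1 ∪ Q2) ∩ χ ⁻¹' {q} = Q2 ∩ χ ⁻¹' {q} := by
        ext n
        simp only [Set.mem_inter_iff, Set.mem_union, Set.mem_preimage, Set.mem_singleton_iff]
        constructor
        · rintro ⟨h | h, h'⟩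
          · exfalso
            have : (χ n).2 = true := by simp [χ, h]
            rw [h', hq] at this
            exact Bool.noConfusion this
          · exact ⟨h, h'⟩
        · rintro ⟨h, h'⟩
          exact ⟨Or.inr h, h'⟩
      rw [this]
      linarith
    · have : (Q1 ∪ Q2) ∩ χ ⁻¹' {q} = Q1 ∩ χ ⁻¹' {q} := by
        ext n
        simp only [Set.mem_inter_iff, Set.mem_union, Set.mem_preimage, Set.mem_singleton_iff]
        constructor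
        · rintro ⟨h | h, h'⟩
          · exact ⟨h, h'⟩
          · exfalso
            have h3 : n ∉ Q1 := fun h4 => Set.disjoint_left.mp hd h4 h
            have : (χ n).2 = false := by simp [χ, h3]
            rw [h', hq] at this
            exact Bool.noConfusion this
        · rintro ⟨h, h'⟩
          exact ⟨Or.inl h, h'⟩
      rw [this]
      linarith
  have e4 := kap_le μ ν F h0 h1 χ P (Q1 ∪ Q2)
  linarith

end

/-- the section of `F` -/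
def sec (F : ℕ → ℕ → ℝ) (a : ℕ) : Set ℕ := {b | F a b = 1}

/-- **The extension step.** -/
theorem extend (μ ν : Mean ℕ) (F : ℕ → ℕ → ℝ) (hF : ∀ a b, F a b = 0 ∨ F a b = 1)
    (hμ : ∀ N : ℕ, μ.f (ind (Set.Iic N)) = 0) (P Q : Set ℕ) (hpos : 0 < kap μ ν F P Q) (N : ℕ) :
    ∃ a ∈ P, N < a ∧ 0 < kap μ ν F P (Q ∩ sec F a) := by
  have h0 : ∀ a b, 0 ≤ F a b := fun a b => by rcases hF a b with h | h <;> rw [h] <;> norm_num
  have h1 : ∀ a b, F a b ≤ 1 := fun a b => by rcases hF a b with h | h <;> rw [h] <;> norm_num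
  by_contra hcon
  push Not at hcon
  have hnull : ∀ a ∈ P, N < a → kap μ ν F P (Q ∩ sec F a) = 0 := fun a ha hN =>
    le_antisymm (hcon a ha hN) (kap_nonneg μ ν F h0 h1 _ _)
  -- the trace on the second coordinate
  set K : Set ℕ → ℝ := fun R => kap μ ν F P (Q ∩ R) with hK
  set n : Set ℕ → ℝ := fun R => ν.f (ind R) with hn
  have hindb : ∀ R : Set ℕ, Bd (ind R) := fun R => Bd.of_unit (ind_nonneg R) (ind_le_one R)
  have hn0 : ∀ R, 0 ≤ n R := fun R => ν.pos (hindb R) (ind_nonneg R)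
  have hK0 : ∀ R, 0 ≤ K R := fun R => kap_nonneg μ ν F h0 h1 _ _
  have hl1n : ∀ P' R : Set ℕ, l1 μ ν F P' R ≤ n R := by
    intro P' R
    have : μ.f (fun _ => n R) = n R := μ.const _
    rw [← this]
    unfold l1
    refine μ.mono (Mean.bd_inner ν _ ⟨1, fun a b => ?_⟩) (Bd.const _) fun a => ?_
    · rw [abs_of_nonneg (term_nonneg F h0 h1 P' R a b)]
      exact term_le_one F h0 h1 P' R a b
    · refine ν.mono (Bd.of_unit (term_nonneg F h0 h1 P' R a) (term_le_one F h0 h1 P' R a)) (hindb R)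
        fun b => ?_
      have e1 := ind_nonneg P' a
      have e2 := ind_nonneg R b
      have e3 := ind_le_one P' a
      have e6 := h0 a b
      have e7 := h1 a b
      have e8 : ind P' a * F a b ≤ 1 := by nlinarith
      calc ind P' a * ind R b * F a b = ind R b * (ind P' a * F a b) := by ring
        _ ≤ ind R b * 1 := mul_le_mul_of_nonneg_left e8 e2
        _ = ind R b := mul_one _
  have hKn : ∀ R, K R ≤ n R := by
    intro R
    calc K R ≤ kap μ ν F P R := kap_mono μ ν F h0 h1 le_rfl Set.inter_subset_right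
      _ ≤ l1 μ ν F P R := kap_le_l1 μ ν F h0 h1 P R
      _ ≤ n R := hl1n P R
  -- the supremum of the ratios
  set S : Set ℝ := {t | ∃ R, 0 < n R ∧ t = K R / n R} with hS
  have hSb : BddAbove S := by
    refine ⟨1, ?_⟩
    rintro t ⟨R, hR, rfl⟩
    rw [div_le_one hR]
    exact hKn R
  have hKu : K Set.univ = kap μ ν F P Q := by
    simp only [hK, Set.inter_univ]
  have hnu : 0 < n Set.univ := lt_of_lt_of_le (by rw [hKu]; exact hpos) (hKn Set.univ)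
  have hSne : S.Nonempty := ⟨_, Set.univ, hnu, rfl⟩
  set ρ : ℝ := sSup S with hρ
  have hρ1 : ρ ≤ 1 := csSup_le hSne (by
    rintro t ⟨R, hR, rfl⟩
    rw [div_le_one hR]
    exact hKn R)
  have hρ0 : 0 < ρ := by
    have h2 : K Set.univ / n Set.univ ≤ ρ := le_csSup hSb ⟨Set.univ, hnu, rfl⟩
    have h3 : 0 < K Set.univ / n Set.univ := div_pos (by rw [hKu]; exact hpos) hnu
    linarith
  have hKρ : ∀ R, K R ≤ ρ * n R := by
    intro R
    rcases (hn0 R).lt_or_eq with h | h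
    · have : K R / n R ≤ ρ := le_csSup hSb ⟨R, h, rfl⟩
      rwa [div_le_iff₀ h] at this
    · have := hKn R
      rw [← h] at this ⊢
      linarith
  obtain ⟨t, ⟨Q0, hQ0, rfl⟩, ht⟩ := exists_lt_of_lt_csSup hSne (show ρ - ρ ^ 2 / 4 < sSup S by
    rw [← hρ]; nlinarith [sq_pos_of_pos hρ0])
  rw [lt_div_iff₀ hQ0] at ht
  -- small sections
  have hsec : ∀ a ∈ P, N < a → n (Q0 ∩ sec F a) ≤ n Q0 * (ρ / 4) := by
    intro a ha hN
    have e1 : K Q0 ≤ K (Q0 ∩ sec F a) + K (Q0 \ sec F a) := by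
      have e2 : Q ∩ Q0 = (Q ∩ (Q0 ∩ sec F a)) ∪ (Q ∩ (Q0 \ sec F a)) := by
        ext b
        simp only [Set.mem_inter_iff, Set.mem_union, Set.mem_sdiff]
        tauto
      have e3 : Disjoint (Q ∩ (Q0 ∩ sec F a)) (Q ∩ (Q0 \ sec F a)) := by
        rw [Set.disjoint_left]
        rintro b ⟨-, -, hb⟩ ⟨-, -, hb'⟩
        exact hb' hb
      show kap μ ν F P (Q ∩ Q0) ≤ _
      rw [e2]
      exact kap_sub μ ν F h0 h1 P _ _ e3
    have e4 : K (Q0 ∩ sec F a) = 0 := by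
      refine le_antisymm ?_ (hK0 _)
      rw [← hnull a ha hN]
      exact kap_mono μ ν F h0 h1 le_rfl (fun b hb => ⟨hb.1, hb.2.2⟩)
    have e5 : n Q0 = n (Q0 ∩ sec F a) + n (Q0 \ sec F a) := by
      simp only [hn]
      rw [← ν.add_f]
      congr 1
      funext b
      unfold ind
      by_cases hb : b ∈ Q0 <;> by_cases hb' : b ∈ sec F a <;> simp [hb, hb']
    have e6 := hKρ (Q0 \ sec F a)
    have e7 : (ρ - ρ ^ 2 / 4) * n Q0 < ρ * (n Q0 - n (Q0 ∩ sec F a)) := by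
      have : n (Q0 \ sec F a) = n Q0 - n (Q0 ∩ sec F a) := by linarith
      rw [this] at e6
      linarith
    have e8 : ρ * n (Q0 ∩ sec F a) < ρ * (n Q0 * (ρ / 4)) := by nlinarith
    exact (lt_of_mul_lt_mul_left e8 hρ0.le).le
  -- the mass on `P × Q0`
  have hup : l1 μ ν F P Q0 ≤ n Q0 * (ρ / 4) := by
    have hrow : ∀ a, ν.f (fun b => ind P a * ind Q0 b * F a b) ≤ ind (Set.Iic N) a * 1 + n Q0 * (ρ / 4) := by
      intro a
      have hbd : Bd (fun b => ind P a * ind Q0 b * F a b) :=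
        Bd.of_unit (term_nonneg F h0 h1 P Q0 a) (term_le_one F h0 h1 P Q0 a)
      have hc0 : 0 ≤ n Q0 * (ρ / 4) := mul_nonneg (hn0 _) (by linarith)
      by_cases haN : a ≤ N
      · have : ind (Set.Iic N) a = 1 := by simp [ind, haN]
        rw [this]
        have := ν.le_one (term_nonneg F h0 h1 P Q0 a) (term_le_one F h0 h1 P Q0 a)
        linarith
      · have hz : ind (Set.Iic N) a = 0 := by simp [ind, haN]
        rw [hz]
        by_cases haP : a ∈ P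
        · have e1 := hsec a haP (by omega)
          have e2 : ν.f (fun b => ind P a * ind Q0 b * F a b) ≤ n (Q0 ∩ sec F a) := by
            refine ν.mono hbd (hindb _) fun b => ?_
            unfold ind
            rcases hF a b with h | h
            · rw [h]
              split_ifs <;> norm_num
            · have hb : b ∈ sec F a := h
              rw [h]
              by_cases hb0 : b ∈ Q0 <;> simp [haP, hb0, hb]
          linarith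
        · have : (fun b => ind P a * ind Q0 b * F a b) = fun _ => 0 := by
            funext b
            simp [ind, haP]
          rw [this, ν.const]
          linarith
    unfold l1
    have h2 : μ.f (fun a => ν.f (fun b => ind P a * ind Q0 b * F a b)) ≤
        μ.f (fun a => ind (Set.Iic N) a * 1 + n Q0 * (ρ / 4)) := by
      refine μ.mono (Mean.bd_inner ν _ ⟨1, fun a b => ?_⟩) ?_ hrow
      · rw [abs_of_nonneg (term_nonneg F h0 h1 P Q0 a b)]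
        exact term_le_one F h0 h1 P Q0 a b
      · exact ((hindb _).mul (Bd.const 1)).add (Bd.const _)
    rw [μ.add_f, μ.f_mul, μ.const, hμ N] at h2
    linarith
  have hlow : K Q0 ≤ l1 μ ν F P Q0 := by
    calc K Q0 ≤ kap μ ν F P Q0 := kap_mono μ ν F h0 h1 le_rfl Set.inter_subset_right
      _ ≤ _ := kap_le_l1 μ ν F h0 h1 P Q0
  have hfin : (ρ - ρ ^ 2 / 4) * n Q0 < n Q0 * (ρ / 4) := by linarith
  have : ρ - ρ ^ 2 / 4 < ρ / 4 := by
    have := hfin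
    rw [mul_comm (n Q0)] at this
    exact lt_of_mul_lt_mul_right this hQ0.le
  nlinarith

/-- **Positive common part gives an infinite complete rectangle.** -/
theorem exists_infinite (μ ν : Mean ℕ) (F : ℕ → ℕ → ℝ) (hF : ∀ a b, F a b = 0 ∨ F a b = 1)
    (hμ : ∀ N : ℕ, μ.f (ind (Set.Iic N)) = 0) (hν : ∀ N : ℕ, ν.f (ind (Set.Iic N)) = 0)
    (hpos : 0 < kap μ ν F Set.univ Set.univ) :
    ∃ A B : Set ℕ, A.Infinite ∧ B.Infinite ∧ ∀ a ∈ A, ∀ b ∈ B, F a b = 1 := by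
  have step : ∀ s : {s : (Set ℕ × Set ℕ) × (ℕ × ℕ) // 0 < kap μ ν F s.1.1 s.1.2},
      ∃ s' : {s : (Set ℕ × Set ℕ) × (ℕ × ℕ) // 0 < kap μ ν F s.1.1 s.1.2},
        s'.1.2.1 ∈ s.1.1.1 ∧ s'.1.2.2 ∈ s.1.1.2 ∧ s.1.2.1 < s'.1.2.1 ∧ s.1.2.2 < s'.1.2.2 ∧
        F s'.1.2.1 s'.1.2.2 = 1 ∧ s'.1.1.1 ⊆ s.1.1.1 ∧ s'.1.1.2 ⊆ s.1.1.2 ∧
        (∀ a ∈ s'.1.1.1, F a s'.1.2.2 = 1) ∧ (∀ b ∈ s'.1.1.2, F s'.1.2.1 b = 1) := by
    rintro ⟨⟨⟨P, Q⟩, ⟨a0, b0⟩⟩, hs⟩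
    obtain ⟨a, haP, ha0, ha⟩ := extend μ ν F hF hμ P Q hs a0
    have ha' : 0 < kap ν μ (fun b a => F a b) (Q ∩ sec F a) P := by
      rw [← kap_swap]
      exact ha
    obtain ⟨b, hbQ, hb0, hb⟩ := extend ν μ (fun b a => F a b) (fun b a => hF a b) hν _ _ ha' b0
    have hb' : 0 < kap μ ν F (P ∩ sec (fun b a => F a b) b) (Q ∩ sec F a) := by
      rw [kap_swap]
      exact hb
    refine ⟨⟨⟨⟨P ∩ sec (fun b a => F a b) b, Q ∩ sec F a⟩, ⟨a, b⟩⟩, hb'⟩, haP, hbQ.1, ha0, hb0,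
      hbQ.2, Set.inter_subset_left, Set.inter_subset_left, ?_, ?_⟩
    · rintro a' ⟨-, h⟩
      exact h
    · rintro b' ⟨-, h⟩
      exact h
  choose nxt hnxt using step
  let s0 : {s : (Set ℕ × Set ℕ) × (ℕ × ℕ) // 0 < kap μ ν F s.1.1 s.1.2} :=
    ⟨⟨⟨Set.univ, Set.univ⟩, ⟨0, 0⟩⟩, hpos⟩
  let s : ℕ → {s : (Set ℕ × Set ℕ) × (ℕ × ℕ) // 0 < kap μ ν F s.1.1 s.1.2} :=
    fun n => nxt^[n] s0
  have hs : ∀ n, s (n + 1) = nxt (s n) := fun n => Function.iterate_succ_apply' nxt n s0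
  let a : ℕ → ℕ := fun n => (s (n + 1)).1.2.1
  let b : ℕ → ℕ := fun n => (s (n + 1)).1.2.2
  have hP : ∀ i j, i ≤ j → (s j).1.1.1 ⊆ (s i).1.1.1 ∧ (s j).1.1.2 ⊆ (s i).1.1.2 := by
    intro i j hij
    induction j, hij using Nat.le_induction with
    | base => exact ⟨le_rfl, le_rfl⟩
    | succ j hij ih =>
      rw [hs j]
      exact ⟨(hnxt (s j)).2.2.2.2.2.1.trans ih.1, (hnxt (s j)).2.2.2.2.2.2.1.trans ih.2⟩
  have haP : ∀ n, a n ∈ (s n).1.1.1 := fun n => by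
    show (s (n + 1)).1.2.1 ∈ _
    rw [hs n]
    exact (hnxt (s n)).1
  have hbP : ∀ n, b n ∈ (s n).1.1.2 := fun n => by
    show (s (n + 1)).1.2.2 ∈ _
    rw [hs n]
    exact (hnxt (s n)).2.1
  have hcross1 : ∀ n, ∀ x ∈ (s (n + 1)).1.1.1, F x (b n) = 1 := by
    intro n x hx
    show F x (s (n + 1)).1.2.2 = 1
    rw [hs n] at hx ⊢
    exact (hnxt (s n)).2.2.2.2.2.2.2.1 x hx
  have hcross2 : ∀ n, ∀ y ∈ (s (n + 1)).1.1.2, F (a n) y = 1 := by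
    intro n y hy
    show F (s (n + 1)).1.2.1 y = 1
    rw [hs n] at hy ⊢
    exact (hnxt (s n)).2.2.2.2.2.2.2.2 y hy
  have hdiag : ∀ n, F (a n) (b n) = 1 := by
    intro n
    show F (s (n + 1)).1.2.1 (s (n + 1)).1.2.2 = 1
    rw [hs n]
    exact (hnxt (s n)).2.2.2.2.1
  have hamono : StrictMono a := by
    refine strictMono_nat_of_lt_succ fun n => ?_
    show (s (n + 1)).1.2.1 < (s (n + 1 + 1)).1.2.1
    rw [hs (n + 1)]
    exact (hnxt (s (n + 1))).2.2.1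
  have hbmono : StrictMono b := by
    refine strictMono_nat_of_lt_succ fun n => ?_
    show (s (n + 1)).1.2.2 < (s (n + 1 + 1)).1.2.2
    rw [hs (n + 1)]
    exact (hnxt (s (n + 1))).2.2.2.1
  refine ⟨Set.range a, Set.range b, Set.infinite_range_of_injective hamono.injective,
    Set.infinite_range_of_injective hbmono.injective, ?_⟩
  rintro _ ⟨i, rfl⟩ _ ⟨j, rfl⟩
  rcases lt_trichotomy i j with h | h | h
  · exact hcross2 i _ ((hP (i + 1) j h).2 (hbP j))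
  · subst h
    exact hdiag i
  · exact hcross1 j _ ((hP (j + 1) i h).1 (haP i))

/-- **The two block theorem.** -/
theorem two_block (μ ν : Mean ℕ) (F : ℕ → ℕ → ℝ) (hF : ∀ a b, F a b = 0 ∨ F a b = 1)
    (hμ : ∀ N : ℕ, μ.f (ind (Set.Iic N)) = 0) (hν : ∀ N : ℕ, ν.f (ind (Set.Iic N)) = 0)
    (hfree : ¬ ∃ A B : Set ℕ, A.Infinite ∧ B.Infinite ∧ ∀ a ∈ A, ∀ b ∈ B, F a b = 1)
    {ε : ℝ} (hε : 0 < ε) :
    ∃ (k : ℕ) (χ : ℕ → Fin k), val μ ν F χ Set.univ Set.univ < ε := by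
  have h0 : ∀ a b, 0 ≤ F a b := fun a b => by rcases hF a b with h | h <;> rw [h] <;> norm_num
  have h1 : ∀ a b, F a b ≤ 1 := fun a b => by rcases hF a b with h | h <;> rw [h] <;> norm_num
  have hz : kap μ ν F Set.univ Set.univ = 0 := by
    refine le_antisymm ?_ (kap_nonneg μ ν F h0 h1 _ _)
    by_contra hcon
    exact hfree (exists_infinite μ ν F hF hμ hν (not_le.mp hcon))
  obtain ⟨v, ⟨k, χ, rfl⟩, hv⟩ := exists_lt_of_csInf_lt (vals_nonempty μ ν F Set.univ Set.univ)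
    (show sInf (vals μ ν F Set.univ Set.univ) < ε by
      have : sInf (vals μ ν F Set.univ Set.univ) = 0 := hz
      rw [this]
      exact hε)
  exact ⟨k, χ, hv⟩

end Pool.Agent.X330.PS
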