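import Pool.Agent.X330.PS.Tele
import Pool.Agent.X330.PS.TwoBlock

set_option autoImplicit false
set_option linter.unusedVariables false

namespace Pool.Agent.X330.PS

open Classical

/-- the product of the numbers `1 + w i` -/
def prd {n : ℕ} (w : Fin n → ℕ) : ℕ := ∏ i, (1 + w i)

theorem prd_pos {n : ℕ} (w : Fin n → ℕ) : 1 ≤ prd w :=
  Nat.one_le_iff_ne_zero.mpr (Finset.prod_ne_zero_iff.mpr fun i _ => by omega)

theorem prd_cons {n : ℕ} (y : ℕ) (w : Fin n → ℕ) :
    prd (Fin.cons y w : Fin (n + 1) → ℕ) = (1 + y) * prd w := by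
  unfold prd
  rw [Fin.prod_univ_succ]
  simp only [Fin.cons_zero, Fin.cons_succ]

/-- the averaging operator -/
noncomputable def Ar (m : Mean ℕ) (r : ℕ) (φ : ℕ → ℝ) (c : ℕ) : ℝ :=
  (MF m r).f (fun w => φ (c * prd w))

theorem Ar_zero (m : Mean ℕ) (φ : ℕ → ℝ) (c : ℕ) : Ar m 0 φ c = φ c := by
  unfold Ar
  rw [MF_zero]
  simp [prd]

theorem Ar_succ (m : Mean ℕ) (r : ℕ) (φ : ℕ → ℝ) (c : ℕ) :
    Ar m (r + 1) φ c = m.f (fun y => Ar m r φ (c * (1 + y))) := by
  unfold Ar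
  rw [MF_succ]
  simp only [prd_cons, mul_assoc]

theorem Ar_bd (m : Mean ℕ) (r : ℕ) {φ : ℕ → ℝ} (hφ : Bd φ) : Bd (Ar m r φ) := by
  obtain ⟨C, hC⟩ := hφ
  exact ⟨C, fun c => (MF m r).abs_le fun w => hC _⟩

/-- multiplicative invariance -/
def Inv (m : Mean ℕ) : Prop :=
  ∀ a : ℕ, 1 ≤ a → ∀ φ : ℕ → ℝ, (∃ C, ∀ x, |φ x| ≤ C) → m.f (fun n => φ (a * n)) = m.f φ

theorem Ar_shift {m : Mean ℕ} (hm : Inv m) (r : ℕ) {φ : ℕ → ℝ} (hφ : Bd φ) (h c : ℕ)
    (hc : 1 ≤ c) : Ar m r (fun n => φ (n + h)) c = Ar m r φ (c + h) := by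
  induction r generalizing c with
  | zero => rw [Ar_zero, Ar_zero]
  | succ r ih =>
    rw [Ar_succ, Ar_succ]
    have hb := Ar_bd m r hφ
    have hb' : ∃ C, ∀ x : ℕ, |(fun v => Ar m r φ (c + h + v)) x| ≤ C := Bd.comp hb _
    have e1 : (fun y => Ar m r (fun n => φ (n + h)) (c * (1 + y))) =
        fun y => (fun v => Ar m r φ (c + h + v)) (c * y) := by
      funext y
      rw [ih (c * (1 + y)) (Nat.one_le_iff_ne_zero.mpr (by positivity))]
      show Ar m r φ (c * (1 + y) + h) = Ar m r φ (c + h + c * y)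
      congr 1
      ring
    have e2 : (fun y => Ar m r φ ((c + h) * (1 + y))) =
        fun y => (fun v => Ar m r φ (c + h + v)) ((c + h) * y) := by
      funext y
      show Ar m r φ ((c + h) * (1 + y)) = Ar m r φ (c + h + (c + h) * y)
      congr 1
      ring
    rw [e1, e2, hm c hc _ hb', hm (c + h) (by omega) _ hb']

theorem ind_bd (S : Set ℕ) : Bd (ind S) := Bd.of_unit (ind_nonneg S) (ind_le_one S)

/-- **The window lemma.** -/
theorem exists_c {m : Mean ℕ} (hm : Inv m) (S : Set ℕ) (L : ℕ)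
    (hS : ∀ n, 1 ≤ n → ∃ h ≤ L, n + h ∈ S) (r : ℕ) :
    ∃ c, 1 ≤ c ∧ 1 / ((L : ℝ) + 1) ≤ Ar m r (ind S) c := by
  by_contra hcon
  push Not at hcon
  have h1 : ∑ h ∈ Finset.range (L + 1), Ar m r (ind S) (1 + h) < 1 := by
    calc ∑ h ∈ Finset.range (L + 1), Ar m r (ind S) (1 + h)
        < ∑ h ∈ Finset.range (L + 1), 1 / ((L : ℝ) + 1) :=
          Finset.sum_lt_sum_of_nonempty ⟨0, by simp⟩ fun h _ => hcon (1 + h) (by omega)
      _ = 1 := by
          rw [Finset.sum_const, Finset.card_range, nsmul_eq_mul]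
          push_cast
          field_simp
  have h2 : ∑ h ∈ Finset.range (L + 1), Ar m r (ind S) (1 + h) =
      (MF m r).f (fun w => ∑ h ∈ Finset.range (L + 1), ind S (1 * prd w + h)) := by
    rw [(MF m r).sum_f]
    refine Finset.sum_congr rfl fun h _ => ?_
    rw [← Ar_shift hm r (ind_bd S) h 1 le_rfl]
    rfl
  have h3 : (1 : ℝ) ≤ (MF m r).f (fun w => ∑ h ∈ Finset.range (L + 1), ind S (1 * prd w + h)) := by
    have h4 := (MF m r).mono (φ := fun _ => 1)
      (ψ := fun w => ∑ h ∈ Finset.range (L + 1), ind S (1 * prd w + h)) (Bd.const 1)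
      (Bd.sum _ fun h _ => (ind_bd S).comp _) (fun w => by
        obtain ⟨h, hh, hmem⟩ := hS (prd w) (prd_pos w)
        have h5 := Finset.single_le_sum (f := fun h => ind S (1 * prd w + h))
          (fun i _ => ind_nonneg _ _) (Finset.mem_range.mpr (Nat.lt_succ_of_le hh))
        have h6 : ind S (1 * prd w + h) = 1 := by
          rw [one_mul]
          simp [ind, hmem]
        simp only [h6] at h5
        exact h5)
    rwa [(MF m r).one] at h4
  linarith

/-- the law of a product of `s` factors -/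
noncomputable def mu (m : Mean ℕ) (s : ℕ) : Mean ℕ := (MF m s).map prd

theorem m_null {m : Mean ℕ} (hm : Inv m)
    (hz : ∀ φ : ℕ → ℝ, (∀ x, 1 ≤ x → φ x = 0) → (∃ C, ∀ x, |φ x| ≤ C) → m.f φ = 0) (N : ℕ) :
    m.f (ind (Set.Iic N)) = 0 := by
  rw [← hm (N + 1) (by omega) (ind (Set.Iic N)) (ind_bd _)]
  refine hz _ (fun x hx => ?_) ((ind_bd _).comp _)
  unfold ind
  rw [if_neg]
  simp only [Set.mem_Iic, not_le]
  nlinarith

theorem mu_null {m : Mean ℕ} (hm : Inv m)
    (hz : ∀ φ : ℕ → ℝ, (∀ x, 1 ≤ x → φ x = 0) → (∃ C, ∀ x, |φ x| ≤ C) → m.f φ = 0)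
    (s : ℕ) (hs : 1 ≤ s) (N : ℕ) : (mu m s).f (ind (Set.Iic N)) = 0 := by
  obtain ⟨s, rfl⟩ : ∃ t, s = t + 1 := ⟨s - 1, by omega⟩
  refine le_antisymm ?_ ((mu m (s + 1)).pos (ind_bd _) (ind_nonneg _))
  unfold mu
  rw [Mean.map_f, MF_succ, ← m_null hm hz N]
  refine m.mono ?_ (ind_bd _) fun y => ?_
  · exact Mean.bd_inner (MF m s) _ ⟨1, fun a b => abs_le.mpr
      ⟨by linarith [ind_nonneg (Set.Iic N) (prd (Fin.cons a b : Fin (s + 1) → ℕ))], ind_le_one _ _⟩⟩
  · have h1 : (MF m s).f (fun _ => ind (Set.Iic N) y) = ind (Set.Iic N) y := (MF m s).const _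
    rw [← h1]
    refine (MF m s).mono ((ind_bd _).comp _) (Bd.const _) fun w => ?_
    have h2 := prd_pos w
    unfold ind
    by_cases h : y ≤ N
    · rw [if_pos (show y ∈ Set.Iic N from h)]
      split_ifs <;> norm_num
    · rw [if_neg]
      · split_ifs <;> norm_num
      · simp only [Set.mem_Iic, not_le, prd_cons]
        nlinarith

theorem prd_blk (x : ℕ → ℕ) (s t : ℕ) :
    prd (blk x 0 (s + t)) = prd (blk x 0 s) * prd (blk x s t) := by
  unfold prd
  rw [Fin.prod_univ_add]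
  congr 1
  refine Finset.prod_congr rfl fun i _ => ?_
  unfold blk
  simp

/-- splitting the expectation in two blocks -/
theorem split (m : Mean ℕ) (s t : ℕ) (φ : ℕ → ℕ → ℝ) (x : ℕ → ℕ) :
    It m 0 (s + t) (fun x => φ (prd (blk x 0 s)) (prd (blk x s t))) x =
      (mu m s).f (fun a => (mu m t).f (fun b => φ a b)) := by
  rw [It_add]
  unfold It mu
  rw [Mean.map_f]
  congr 1
  funext w
  rw [Mean.map_f]
  congr 1
  funext z
  show φ (prd (blk (splice (splice x 0 w) (0 + s) z) 0 s))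
    (prd (blk (splice (splice x 0 w) (0 + s) z) s t)) = φ (prd w) (prd z)
  have e1 : blk (splice (splice x 0 w) (0 + s) z) 0 s = w := by
    funext i
    unfold blk
    rw [splice_of_lt _ _ _ (by have := i.isLt; omega)]
    exact splice_add x 0 w i
  have e2 : blk (splice (splice x 0 w) (0 + s) z) s t = z := by
    funext i
    have := splice_add (splice x 0 w) (0 + s) z i
    unfold blk
    rw [← this, zero_add]
  rw [e1, e2]

end Pool.Agent.X330.PS
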